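import Pool.Graph.R_pool_sql_team_seeded_3997aac3.Q238.FP.Defs

/-!
# A builder for connected drawings
-/

set_option autoImplicit false

namespace Pool.Agent.H85.FP

open Pool.Agent.Q238.FP

/-- The faces of a connected drawing, with a representing dart for each face. -/
structure Skel {V E : Type} (G : Data V E) (F : Type) where
  face : G.Dart → F
  rep : F → G.Dart
  vx : V → E × Bool
  f0 : F
  face_next : ∀ d, face (G.next d) = face d
  face_rep : ∀ f, face (rep f) = f
  orb : ∀ d, ∃ m : ℕ, G.next^[m] (rep (face d)) = d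
  vert_vx : ∀ v, G.vert (vx v) = v
  conn : ∀ P : F → Prop, (∀ d, P (face d) ↔ P (face (G.rev d))) → ∀ f, P f ↔ P f0

theorem zpow_inv {α β : Type} (r : Equiv.Perm α) (f : α → β) (h : ∀ z, f (r z) = f z) (n : ℤ)
    (x : α) : f ((r ^ n) x) = f x := by
  have h2 : ∀ z, f (r⁻¹ z) = f z := by
    intro z
    have := h (r⁻¹ z)
    rw [← Equiv.Perm.mul_apply, mul_inv_cancel] at this
    exact this.symm
  induction n using Int.induction_on generalizing x with
  | zero => rfl
  | succ n ih =>
    rw [zpow_add_one, Equiv.Perm.mul_apply, ih, h]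
  | pred n ih =>
    rw [zpow_sub_one, Equiv.Perm.mul_apply, ih, h2]

theorem sameCycle_iff {α β : Type} (r : Equiv.Perm α) (f : α → β) (vx : β → α)
    (h : ∀ z, f (r z) = f z) (hv : ∀ z, r.SameCycle z (vx (f z))) (x y : α) :
    r.SameCycle x y ↔ f x = f y := by
  constructor
  · rintro ⟨n, hn⟩
    rw [← hn, zpow_inv r f h]
  · intro hxy
    have h1 := hv x
    have h2 := hv y
    rw [hxy] at h1
    exact h1.trans h2.symm

namespace Skel

variable {V E F : Type} {G : Data V E} (S : Skel G F)

theorem mk_iter (m : ℕ) (d : G.Dart) :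
    (Quot.mk _ (G.next^[m] d) : G.Walk) = Quot.mk _ d := by
  induction m with
  | zero => rfl
  | succ m ih =>
    rw [Function.iterate_succ_apply']
    exact (Quot.sound (r := fun d d' : G.Dart => G.next d = d') rfl).symm.trans ih

theorem mk_iter' (m : ℕ) (d : G.Dart) :
    (Quot.mk _ (G.next^[m] d) : G.Comp) = Quot.mk _ d := by
  induction m with
  | zero => rfl
  | succ m ih =>
    rw [Function.iterate_succ_apply']
    exact (Quot.sound (r := fun d d' : G.Dart => G.next d = d' ∨ G.rev d = d')
      (Or.inl rfl)).symm.trans ih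

theorem mk_rep (d : G.Dart) : (Quot.mk _ (S.rep (S.face d)) : G.Walk) = Quot.mk _ d := by
  obtain ⟨m, hm⟩ := S.orb d
  conv_rhs => rw [← hm]
  exact (mk_iter m _).symm

theorem mk_rep' (d : G.Dart) : (Quot.mk _ (S.rep (S.face d)) : G.Comp) = Quot.mk _ d := by
  obtain ⟨m, hm⟩ := S.orb d
  conv_rhs => rw [← hm]
  exact (mk_iter' m _).symm

/-- walks are faces -/
def walkEquiv : G.Walk ≃ F where
  toFun w := Quot.lift S.face (fun a b (h : G.next a = b) => by rw [← h, S.face_next]) w
  invFun f := Quot.mk _ (S.rep f)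
  left_inv w := by
    induction w using Quot.ind with
    | mk d => exact S.mk_rep d
  right_inv f := S.face_rep f

include S in
theorem card_walk : Nat.card G.Walk = Nat.card F := Nat.card_congr S.walkEquiv

include S in
theorem card_comp : Nat.card G.Comp = 1 := by
  rw [Nat.card_eq_one_iff_unique]
  refine ⟨⟨fun a b => ?_⟩, ⟨Quot.mk _ (S.rep S.f0)⟩⟩
  have key : ∀ d : G.Dart, (Quot.mk _ d : G.Comp) = Quot.mk _ (S.rep S.f0) := by
    intro d
    have h := S.conn (fun f => (Quot.mk _ (S.rep f) : G.Comp) = Quot.mk _ (S.rep S.f0))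
      (fun d => by
        rw [S.mk_rep', S.mk_rep']
        have : (Quot.mk _ d : G.Comp) = Quot.mk _ (G.rev d) :=
          Quot.sound (r := fun d d' : G.Dart => G.next d = d' ∨ G.rev d = d') (Or.inr rfl)
        rw [this]) (S.face d)
    have h' := h.2 rfl
    rwa [S.mk_rep'] at h'
  induction a using Quot.ind with
  | mk d =>
    induction b using Quot.ind with
    | mk d' => rw [key d, key d']

include S in
theorem card_iso : Nat.card G.Iso = 0 := by
  have : IsEmpty G.Iso := ⟨fun v => v.2 (S.vx v.1) (S.vert_vx v.1)⟩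
  exact Nat.card_of_isEmpty

/-- the drawing -/
def toDrawing (h : 2 * Nat.card V + Nat.card (Σ e, Fin (G.len e)) + 2 * Nat.card F =
    2 * Nat.card (Σ e, Fin (G.len e + 1)) + 4) : Drawing V E F where
  toData := G
  face := S.face
  loc v := S.face (G.out (S.vx v))
  face_next := S.face_next
  face_loc x := ⟨S.vx (G.vert x), S.vert_vx _, rfl⟩
  face_surj f := Or.inl ⟨S.rep f, S.face_rep f⟩
  euler := by
    rw [S.card_walk, S.card_comp, S.card_iso]
    omega
  card_face := by
    rw [S.card_walk, S.card_comp, S.card_iso]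
  conn A hA := by
    have h1 := S.conn (fun f => f ∈ A) hA
    by_cases h0 : S.f0 ∈ A
    · right
      ext f
      simp only [Set.mem_univ, iff_true]
      exact (h1 f).2 h0
    · left
      ext f
      simp only [Set.mem_empty_iff_false, iff_false]
      exact fun h => h0 ((h1 f).1 h)

end Skel

end Pool.Agent.H85.FP
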