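import Pool.Agent.H85.FP.Build

/-!
# The drawing with five vertices

A cycle with five vertices, and all five diagonals on each side.
-/

set_option autoImplicit false

namespace Pool.Agent.H85.FP.Penta

open Pool.Agent.Q238.FP

/-- The edges: `C i` from `i` to `i + 1`, and `N s i` from `i - 1` to `i + 1` on the side `s`. -/
inductive Ed
  | C (i : ZMod 5)
  | N (s : Bool) (i : ZMod 5)
  deriving DecidableEq

/-- the faces: one in the middle, one at each edge of the cycle, one at each vertex -/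
inductive Fc
  | O (s : Bool)
  | T (s : Bool) (i : ZMod 5)
  | Q (s : Bool) (i : ZMod 5)
  deriving DecidableEq

def len : Ed → ℕ
  | .C _ => 0
  | .N _ _ => 2

def vert : Ed × Bool → ZMod 5
  | (.C i, false) => i
  | (.C i, true) => i + 1
  | (.N _ i, false) => i - 1
  | (.N _ i, true) => i + 1

def cr : (Σ e : Ed, Fin (len e)) → (Σ e : Ed, Fin (len e))
  | ⟨.C i, j⟩ => ⟨.C i, j⟩
  | ⟨.N s i, (0 : Fin 2)⟩ => ⟨.N s (i - 1), (1 : Fin 2)⟩
  | ⟨.N s i, (1 : Fin 2)⟩ => ⟨.N s (i + 1), (0 : Fin 2)⟩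

def toLeft : (Σ e : Ed, Fin (len e)) → Bool
  | ⟨.C _, _⟩ => true
  | ⟨.N s _, (0 : Fin 2)⟩ => s
  | ⟨.N s _, (1 : Fin 2)⟩ => !s

def rotF : Ed × Bool → Ed × Bool
  | (.C j, true) => (.N false j, true)
  | (.N false j, true) => (.N false (j + 2), false)
  | (.N false j, false) => (.C (j - 1), false)
  | (.C j, false) => (.N true (j + 1), false)
  | (.N true j, false) => (.N true (j - 2), true)
  | (.N true j, true) => (.C j, true)

def rotI : Ed × Bool → Ed × Bool
  | (.N false j, true) => (.C j, true)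
  | (.N false j, false) => (.N false (j - 2), true)
  | (.C j, false) => (.N false (j + 1), false)
  | (.N true j, false) => (.C (j - 1), false)
  | (.N true j, true) => (.N true (j + 2), false)
  | (.C j, true) => (.N true j, true)

def rot : Equiv.Perm (Ed × Bool) where
  toFun := rotF
  invFun := rotI
  left_inv x := by
    rcases x with ⟨_ | ⟨_ | _, _⟩, _ | _⟩ <;> simp [rotF, rotI]
  right_inv x := by
    rcases x with ⟨_ | ⟨_ | _, _⟩, _ | _⟩ <;> simp [rotF, rotI]

theorem vert_rotF (x : Ed × Bool) : vert (rotF x) = vert x := by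
  rcases x with ⟨i | ⟨_ | _, i⟩, _ | _⟩ <;> simp only [rotF, vert] <;> ring

theorem rot_sc (x : Ed × Bool) : rot.SameCycle x (rotF x) := ⟨1, by simp [rot]⟩

/-- the standard edge end at a vertex -/
def vx (i : ZMod 5) : Ed × Bool := (.C i, false)

theorem vert_vx (v : ZMod 5) : vert (vx v) = v := rfl

theorem sc_vx (x : Ed × Bool) : rot.SameCycle x (vx (vert x)) := by
  have hN0 (i : ZMod 5) : rot.SameCycle (.N false i, false) (.C (i - 1), false) := rot_sc _
  have hN1 (i : ZMod 5) : rot.SameCycle (.N false i, true) (.C (i + 1), false) := by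
    refine (rot_sc _).trans ?_
    have := hN0 (i + 2)
    rwa [show i + 2 - 1 = i + 1 by ring] at this
  have hC1 (i : ZMod 5) : rot.SameCycle (.C i, true) (.C (i + 1), false) :=
    (rot_sc _).trans (hN1 _)
  have hN1' (i : ZMod 5) : rot.SameCycle (.N true i, true) (.C (i + 1), false) :=
    (rot_sc _).trans (hC1 _)
  have hN0' (i : ZMod 5) : rot.SameCycle (.N true i, false) (.C (i - 1), false) := by
    refine (rot_sc _).trans ?_
    have := hN1' (i - 2)
    rwa [show i - 2 + 1 = i - 1 by ring] at this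
  rcases x with ⟨i | ⟨_ | _, i⟩, _ | _⟩
  · exact Equiv.Perm.SameCycle.refl _ _
  · exact hC1 i
  · exact hN0 i
  · exact hN1 i
  · exact hN0' i
  · exact hN1' i

def G : Data (ZMod 5) Ed where
  vert := vert
  len := len
  cr := cr
  toLeft := toLeft
  rot := rot
  cr_cr x := by
    rcases x with ⟨i | ⟨s, i⟩, j⟩
    · exact j.elim0
    · change Fin 2 at j
      fin_cases j
      · show (⟨.N s (i - 1 + 1), (0 : Fin 2)⟩ : Σ e : Ed, Fin (len e)) = ⟨.N s i, (0 : Fin 2)⟩
        rw [sub_add_cancel]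
      · show (⟨.N s (i + 1 - 1), (1 : Fin 2)⟩ : Σ e : Ed, Fin (len e)) = ⟨.N s i, (1 : Fin 2)⟩
        rw [add_sub_cancel_right]
  toLeft_cr x := by
    rcases x with ⟨i | ⟨s, i⟩, j⟩
    · exact j.elim0
    · change Fin 2 at j
      fin_cases j <;> cases s <;> rfl
  rot_vert x y := sameCycle_iff rot vert vx vert_rotF sc_vx x y

/-- the faces on the left of the diagonals, on the side of the middle -/
def fo (s : Bool) (i : ZMod 5) : Fin 3 → Fc
  | 0 => .Q s (i - 1)
  | 1 => .O s
  | 2 => .Q s (i + 1)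

/-- the faces on the other side -/
def fi (s : Bool) (i : ZMod 5) : Fin 3 → Fc
  | 0 => .T s (i - 1)
  | 1 => .Q s i
  | 2 => .T s i

def face : (Σ e : Ed, Fin (len e + 1)) × Bool → Fc
  | (⟨.C i, _⟩, b) => .T (!b) i
  | (⟨.N s i, j⟩, b) => if b = s then fi s i j else fo s i j

def rep : Fc → (Σ e : Ed, Fin (len e + 1)) × Bool
  | .O s => (⟨.N s 0, (1 : Fin 3)⟩, !s)
  | .T s i => (⟨.C i, (0 : Fin 1)⟩, !s)
  | .Q s i => (⟨.N s i, (1 : Fin 3)⟩, s)

theorem face_rep (f : Fc) : face (rep f) = f := by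
  rcases f with ⟨_ | _⟩ | ⟨_ | _, i⟩ | ⟨_ | _, i⟩ <;> rfl

theorem face_next (d : G.Dart) : face (G.next d) = face d := by
  rcases d with ⟨⟨i | ⟨s, i⟩, j⟩, b⟩
  · change Fin 1 at j
    fin_cases j
    cases b
    · show Fc.T true (i + 1 - 1) = Fc.T true i
      rw [add_sub_cancel_right]
    · rfl
  · change Fin 3 at j
    fin_cases j <;> cases s <;> cases b
    all_goals first
      | rfl
      | exact congrArg (Fc.T _) (add_sub_cancel_right i 1)
      | exact congrArg (Fc.T _) (sub_add_cancel i 1)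
      | exact congrArg (Fc.Q _) (add_sub_cancel_right i 1)
      | exact congrArg (Fc.Q _) (sub_add_cancel i 1)
      | exact congrArg (Fc.Q _) (show i + 2 - 1 = i + 1 by ring)
      | exact congrArg (Fc.Q _) (show i - 2 + 1 = i - 1 by ring)

theorem orbN (s b : Bool) (q : Fin 3) (m : ℕ) (i j : ZMod 5) (h : j = i)
    (h2 : G.next^[m] (rep (face (⟨.N s i, q⟩, b))) = (⟨.N s j, q⟩, b)) :
    ∃ m : ℕ, G.next^[m] (rep (face (⟨.N s i, q⟩, b))) = (⟨.N s i, q⟩, b) := by
  subst h
  exact ⟨m, h2⟩

theorem orb (d : G.Dart) : ∃ m : ℕ, G.next^[m] (rep (face d)) = d := by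
  rcases d with ⟨⟨i | ⟨s, i⟩, j⟩, b⟩
  · change Fin 1 at j
    fin_cases j
    cases b
    · exact ⟨0, rfl⟩
    · exact ⟨0, rfl⟩
  · change Fin 3 at j
    change Fin 5 at i
    fin_cases i <;> fin_cases j <;> cases s <;> cases b
    all_goals first
      | exact ⟨0, rfl⟩
      | exact ⟨1, rfl⟩
      | exact ⟨2, rfl⟩
      | exact ⟨3, rfl⟩
      | exact ⟨4, rfl⟩

theorem conn (Q : Fc → Prop) (h : ∀ d, Q (face d) ↔ Q (face (G.rev d))) (f : Fc) :
    Q f ↔ Q (.O false) := by
  have hC : ∀ i, Q (.T false i) ↔ Q (.T true i) := fun i => h (⟨.C i, (0 : Fin 1)⟩, true)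
  have hN1 : ∀ s i, Q (.Q s i) ↔ Q (.O s) := by
    intro s i
    cases s
    · exact h (⟨.N false i, (1 : Fin 3)⟩, false)
    · exact h (⟨.N true i, (1 : Fin 3)⟩, true)
  have hN2 : ∀ s i, Q (.T s i) ↔ Q (.Q s (i + 1)) := by
    intro s i
    cases s
    · exact h (⟨.N false i, (2 : Fin 3)⟩, false)
    · exact h (⟨.N true i, (2 : Fin 3)⟩, true)
  have hO : Q (.O true) ↔ Q (.O false) := by
    rw [← hN1 true (0 + 1), ← hN2 true 0, ← hC 0, hN2, hN1]
  have hO' : ∀ s, Q (.O s) ↔ Q (.O false) := by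
    intro s
    cases s
    · rfl
    · exact hO
  rcases f with s | ⟨s, i⟩ | ⟨s, i⟩
  · exact hO' s
  · rw [hN2, hN1, hO']
  · rw [hN1, hO']

def skel : Skel G Fc where
  face := face
  rep := rep
  vx := vx
  f0 := .O false
  face_next := face_next
  face_rep := face_rep
  orb := orb
  vert_vx := vert_vx
  conn := conn

def edEquiv : Ed ≃ ZMod 5 ⊕ (Bool × ZMod 5) where
  toFun
    | .C i => Sum.inl i
    | .N s i => Sum.inr (s, i)
  invFun
    | Sum.inl i => .C i
    | Sum.inr (s, i) => .N s i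
  left_inv e := by cases e <;> rfl
  right_inv e := by rcases e with _ | ⟨_, _⟩ <;> rfl

def fcEquiv : Fc ≃ Bool ⊕ (Bool × ZMod 5) ⊕ (Bool × ZMod 5) where
  toFun
    | .O s => Sum.inl s
    | .T s i => Sum.inr (Sum.inl (s, i))
    | .Q s i => Sum.inr (Sum.inr (s, i))
  invFun
    | Sum.inl s => .O s
    | Sum.inr (Sum.inl (s, i)) => .T s i
    | Sum.inr (Sum.inr (s, i)) => .Q s i
  left_inv e := by cases e <;> rfl
  right_inv e := by rcases e with _ | ⟨_, _⟩ | ⟨_, _⟩ <;> rfl

instance : Fintype Ed := Fintype.ofEquiv _ edEquiv.symm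
instance : Fintype Fc := Fintype.ofEquiv _ fcEquiv.symm

theorem card_ed : Fintype.card Ed = 15 := by
  rw [Fintype.card_congr edEquiv]
  simp only [Fintype.card_sum, Fintype.card_prod, Fintype.card_bool, ZMod.card]

theorem card_fc : Fintype.card Fc = 22 := by
  rw [Fintype.card_congr fcEquiv]
  simp only [Fintype.card_sum, Fintype.card_prod, Fintype.card_bool, ZMod.card]

theorem sum_ed (f : Ed → ℕ) : ∑ e, f e = ∑ i : ZMod 5, (f (.C i) + f (.N false i) +
    f (.N true i)) := by
  rw [← edEquiv.symm.sum_comp]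
  simp only [Fintype.sum_sum_type, Fintype.sum_prod_type, Fintype.sum_bool, edEquiv,
    Equiv.coe_fn_symm_mk, Finset.sum_add_distrib]
  ring

theorem card_cr : Nat.card (Σ e : Ed, Fin (len e)) = 20 := by
  rw [Nat.card_eq_fintype_card, Fintype.card_sigma]
  simp only [Fintype.card_fin]
  rw [sum_ed]
  simp only [len, Finset.sum_const, Finset.card_univ, ZMod.card, smul_eq_mul]

theorem card_seg : Nat.card (Σ e : Ed, Fin (len e + 1)) = 35 := by
  rw [Nat.card_eq_fintype_card, Fintype.card_sigma]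
  simp only [Fintype.card_fin]
  rw [sum_ed]
  simp only [len, Finset.sum_const, Finset.card_univ, ZMod.card, smul_eq_mul]

/-- the drawing -/
def draw : Drawing (ZMod 5) Ed Fc :=
  skel.toDrawing (by
    show 2 * Nat.card (ZMod 5) + Nat.card (Σ e : Ed, Fin (len e)) + 2 * Nat.card Fc =
      2 * Nat.card (Σ e : Ed, Fin (len e + 1)) + 4
    rw [card_cr, card_seg, Nat.card_eq_fintype_card, Nat.card_eq_fintype_card, card_fc, ZMod.card])

theorem loopless : draw.Loopless := by
  intro e
  rcases e with i | ⟨s, i⟩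
  · show i ≠ i + 1
    revert i
    decide
  · show i - 1 ≠ i + 1
    revert i
    decide

theorem simple : draw.Simple := by
  constructor
  · rintro ⟨i | ⟨s, i⟩, j⟩ b b'
    · exact j.elim0
    · change Fin 2 at j
      fin_cases j
      · show vert (Ed.N s i, b) ≠ vert (Ed.N s (i - 1), b')
        revert i b b'
        cases s <;> decide
      · show vert (Ed.N s i, b) ≠ vert (Ed.N s (i + 1), b')
        revert i b b'
        cases s <;> decide
  · rintro ⟨e, j⟩ ⟨e', j'⟩ h h'
    dsimp only at h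
    subst h
    rcases e with i | ⟨s, i⟩
    · exact j.elim0
    · change Fin 2 at j
      change Fin 2 at j'
      have n1 : Ed.N s (i - 1) ≠ Ed.N s (i + 1) := by
        intro h
        injection h with _ h
        have : ∀ i : ZMod 5, i - 1 ≠ i + 1 := by decide
        exact this i h
      fin_cases j <;> fin_cases j'
      · rfl
      · exact absurd h' n1
      · exact absurd h' n1.symm
      · rfl

theorem fanPlanar : draw.FanPlanar := by
  intro e
  rcases e with i | ⟨s, i⟩
  · exact Or.inl ⟨0, fun j => j.elim0⟩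
  · have e1 : i - 1 + 1 = i := by ring
    have e2 : i + 1 - 1 = i := by ring
    cases s
    · right
      refine ⟨i, fun j => ?_⟩
      change Fin 2 at j
      fin_cases j
      · exact e1
      · exact e2
    · left
      refine ⟨i, fun j => ?_⟩
      change Fin 2 at j
      fin_cases j
      · exact e1
      · exact e2

/-- the faces between the diagonals `N s i` and the vertex `i` -/
def reg (i : ZMod 5) : Fc → Bool
  | .O _ => false
  | .T _ j => decide (j = i) || decide (j = i - 1)
  | .Q _ j => decide (j = i)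

theorem region (s : Bool) (i : ZMod 5) :
    draw.Region (.N s i) (.N (!s) i) {f | reg i f = true} := by
  rintro ⟨⟨j | ⟨t, j⟩, q⟩, b⟩
  · change Fin 1 at q
    show (reg i (.T (!b) j) = true ↔ reg i (.T (!!b) j) = true) ↔
      (Ed.C j ≠ Ed.N s i ∧ Ed.C j ≠ Ed.N (!s) i)
    simp [reg]
  · change Fin 3 at q
    have hb : ∀ s t : Bool, (¬ (t = s ∧ j = i) ∧ ¬ (t = !s ∧ j = i)) ↔ j ≠ i := by
      intro s t
      by_cases h : j = i
      · subst h
        cases s <;> cases t <;> simp
      · simp [h]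
    have hR : (Ed.N t j ≠ Ed.N s i ∧ Ed.N t j ≠ Ed.N (!s) i) ↔ j ≠ i := by
      rw [← hb s t]
      simp
    show (reg i (face (⟨.N t j, q⟩, b)) = true ↔ reg i (face (⟨.N t j, q⟩, !b)) = true) ↔
      (Ed.N t j ≠ Ed.N s i ∧ Ed.N t j ≠ Ed.N (!s) i)
    rw [hR]
    clear hR hb
    revert i j
    fin_cases q <;> cases b <;> cases t <;> decide

theorem par (e e' : Ed) (hne : e ≠ e')
    (h : ({vert (e, false), vert (e, true)} : Set (ZMod 5)) =
      {vert (e', false), vert (e', true)}) :
    ∃ s i, e = .N s i ∧ e' = .N (!s) i := by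
  rw [Set.pair_eq_pair_iff] at h
  rcases e with i | ⟨s, i⟩ <;> rcases e' with j | ⟨t, j⟩ <;> simp only [vert] at h
  · exfalso
    have : ∀ i j : ZMod 5, i = j ∧ i + 1 = j + 1 ∨ i = j + 1 ∧ i + 1 = j → i = j := by decide
    exact hne (by rw [this i j h])
  · exfalso
    revert h
    clear hne
    revert i j
    decide
  · exfalso
    revert h
    clear hne
    revert i j
    decide
  · have : ∀ i j : ZMod 5, i - 1 = j - 1 ∧ i + 1 = j + 1 ∨ i - 1 = j + 1 ∧ i + 1 = j - 1 →
      i = j := by decide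
    have hij := this i j h
    subst hij
    have hst : s ≠ t := fun h => hne (by rw [h])
    refine ⟨s, i, rfl, ?_⟩
    cases s <;> cases t <;> simp at hst ⊢

theorem nonHomotopic : draw.NonHomotopic := by
  intro e e' hne h
  obtain ⟨s, i, rfl, rfl⟩ := par e e' hne h
  clear hne h
  refine ⟨_, region s i, ⟨i, ?_, ?_, ?_⟩, ⟨i + 2, ?_, ?_, ?_⟩⟩
  · show i ≠ i - 1
    revert i
    decide
  · show i ≠ i + 1
    revert i
    decide
  · show reg i (.T false i) = true
    simp [reg]
  · show i + 2 ≠ i - 1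
    revert i
    decide
  · show i + 2 ≠ i + 1
    revert i
    decide
  · show ¬ reg i (.T false (i + 2)) = true
    revert i
    decide

end Pool.Agent.H85.FP.Penta
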