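import Pool.Agent.H85.FP.Build

/-!
# The drawing with four vertices

A cycle with four vertices, and both diagonals on each side.
-/

set_option autoImplicit false

namespace Pool.Agent.H85.FP.Quad

open Pool.Agent.Q238.FP

/-- The edges: `C i` from `i` to `i + 1`; on the side `s`, `D s false` from `0` to `2` and
`D s true` from `1` to `3`. -/
inductive Ed
  | C (i : ZMod 4)
  | D (s j : Bool)
  deriving DecidableEq

/-- the faces: one at each edge of the cycle, on each side -/
inductive Fc
  | T (s : Bool) (i : ZMod 4)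
  deriving DecidableEq

def len : Ed → ℕ
  | .C _ => 0
  | .D _ _ => 1

/-- the position of an end of a diagonal -/
def pos : Bool → Bool → ZMod 4
  | false, false => 0
  | true, false => 1
  | false, true => 2
  | true, true => 3

def vert : Ed × Bool → ZMod 4
  | (.C i, false) => i
  | (.C i, true) => i + 1
  | (.D _ j, b) => pos j b

def cr : (Σ e : Ed, Fin (len e)) → (Σ e : Ed, Fin (len e))
  | ⟨.C i, j⟩ => ⟨.C i, j⟩
  | ⟨.D s j, _⟩ => ⟨.D s (!j), (0 : Fin 1)⟩

def toLeft : (Σ e : Ed, Fin (len e)) → Bool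
  | ⟨.C _, _⟩ => true
  | ⟨.D s j, _⟩ => s == j

/-- the end of a diagonal at the position `i` -/
def dg (i : ZMod 4) : Bool × Bool :=
  if i = 0 then (false, false) else if i = 1 then (true, false) else
    if i = 2 then (false, true) else (true, true)

def rotF : Ed × Bool → Ed × Bool
  | (.C j, true) => (.D false (dg (j + 1)).1, (dg (j + 1)).2)
  | (.D false j, b) => (.C (pos j b), false)
  | (.C j, false) => (.D true (dg j).1, (dg j).2)
  | (.D true j, b) => (.C (pos j b - 1), true)

def rotI : Ed × Bool → Ed × Bool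
  | (.D false j, b) => (.C (pos j b - 1), true)
  | (.C j, false) => (.D false (dg j).1, (dg j).2)
  | (.D true j, b) => (.C (pos j b), false)
  | (.C j, true) => (.D true (dg (j + 1)).1, (dg (j + 1)).2)

theorem pos_dg : ∀ i : ZMod 4, pos (dg i).1 (dg i).2 = i := by decide

theorem dg_pos : ∀ j b : Bool, dg (pos j b) = (j, b) := by decide

def rot : Equiv.Perm (Ed × Bool) where
  toFun := rotF
  invFun := rotI
  left_inv x := by
    rcases x with ⟨_ | ⟨_ | _, _⟩, _ | _⟩ <;> simp [rotF, rotI, pos_dg, dg_pos]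
  right_inv x := by
    rcases x with ⟨_ | ⟨_ | _, _⟩, _ | _⟩ <;> simp [rotF, rotI, pos_dg, dg_pos]

theorem vert_rotF (x : Ed × Bool) : vert (rotF x) = vert x := by
  rcases x with ⟨i | ⟨_ | _, i⟩, _ | _⟩ <;> simp [rotF, vert, pos_dg]

theorem rot_sc (x : Ed × Bool) : rot.SameCycle x (rotF x) := ⟨1, by simp [rot]⟩

/-- the standard edge end at a vertex -/
def vx (i : ZMod 4) : Ed × Bool := (.C i, false)

theorem vert_vx (v : ZMod 4) : vert (vx v) = v := rfl

theorem sc_vx (x : Ed × Bool) : rot.SameCycle x (vx (vert x)) := by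
  have hD (j b : Bool) : rot.SameCycle (.D false j, b) (.C (pos j b), false) := rot_sc _
  have hC (i : ZMod 4) : rot.SameCycle (.C i, true) (.C (i + 1), false) := by
    refine (rot_sc _).trans ?_
    have := hD (dg (i + 1)).1 (dg (i + 1)).2
    rwa [pos_dg] at this
  have hD' (j b : Bool) : rot.SameCycle (.D true j, b) (.C (pos j b), false) := by
    refine (rot_sc _).trans ?_
    have := hC (pos j b - 1)
    rwa [sub_add_cancel] at this
  rcases x with ⟨i | ⟨_ | _, i⟩, b⟩
  · cases b
    · exact Equiv.Perm.SameCycle.refl _ _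
    · exact hC i
  · exact hD i b
  · exact hD' i b

def G : Data (ZMod 4) Ed where
  vert := vert
  len := len
  cr := cr
  toLeft := toLeft
  rot := rot
  cr_cr x := by
    rcases x with ⟨i | ⟨s, i⟩, j⟩
    · exact j.elim0
    · change Fin 1 at j
      fin_cases j
      cases i <;> rfl
  toLeft_cr x := by
    rcases x with ⟨i | ⟨s, i⟩, j⟩
    · exact j.elim0
    · cases s <;> cases i <;> rfl
  rot_vert x y := sameCycle_iff rot vert vx vert_rotF sc_vx x y

def face : (Σ e : Ed, Fin (len e + 1)) × Bool → Fc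
  | (⟨.C i, _⟩, b) => .T (!b) i
  | (⟨.D s false, (0 : Fin 2)⟩, b) => if b = s then .T s 0 else .T s 3
  | (⟨.D s false, (1 : Fin 2)⟩, b) => if b = s then .T s 1 else .T s 2
  | (⟨.D s true, (0 : Fin 2)⟩, b) => if b = s then .T s 1 else .T s 0
  | (⟨.D s true, (1 : Fin 2)⟩, b) => if b = s then .T s 2 else .T s 3

def rep : Fc → (Σ e : Ed, Fin (len e + 1)) × Bool
  | .T s i => (⟨.C i, (0 : Fin 1)⟩, !s)

theorem face_rep (f : Fc) : face (rep f) = f := by
  rcases f with ⟨_ | _, i⟩ <;> rfl

theorem face_next (d : G.Dart) : face (G.next d) = face d := by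
  rcases d with ⟨⟨i | ⟨s, i⟩, j⟩, b⟩
  · change Fin 1 at j
    change Fin 4 at i
    fin_cases j
    fin_cases i <;> cases b <;> rfl
  · change Fin 2 at j
    fin_cases j <;> cases s <;> cases b <;> cases i <;> rfl

theorem orb (d : G.Dart) : ∃ m : ℕ, G.next^[m] (rep (face d)) = d := by
  rcases d with ⟨⟨i | ⟨s, i⟩, j⟩, b⟩
  · change Fin 1 at j
    fin_cases j
    cases b
    · exact ⟨0, rfl⟩
    · exact ⟨0, rfl⟩
  · change Fin 2 at j
    fin_cases j <;> cases s <;> cases b <;> cases i
    all_goals first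
      | exact ⟨1, rfl⟩
      | exact ⟨2, rfl⟩

theorem conn (Q : Fc → Prop) (h : ∀ d, Q (face d) ↔ Q (face (G.rev d))) (f : Fc) :
    Q f ↔ Q (.T false 0) := by
  have hC : ∀ i, Q (.T false i) ↔ Q (.T true i) := fun i => h (⟨.C i, (0 : Fin 1)⟩, true)
  have h1 : Q (.T false 3) ↔ Q (.T false 0) := h (⟨.D false false, (0 : Fin 2)⟩, true)
  have h2 : Q (.T false 2) ↔ Q (.T false 1) := h (⟨.D false false, (1 : Fin 2)⟩, true)
  have h3 : Q (.T false 0) ↔ Q (.T false 1) := h (⟨.D false true, (0 : Fin 2)⟩, true)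
  have h4 : ∀ i, Q (.T false i) ↔ Q (.T false 0) := by
    intro i
    change Fin 4 at i
    fin_cases i
    · rfl
    · exact h3.symm
    · exact h2.trans h3.symm
    · exact h1
  rcases f with ⟨s, i⟩
  cases s
  · exact h4 i
  · exact (hC i).symm.trans (h4 i)

def skel : Skel G Fc where
  face := face
  rep := rep
  vx := vx
  f0 := .T false 0
  face_next := face_next
  face_rep := face_rep
  orb := orb
  vert_vx := vert_vx
  conn := conn

def edEquiv : Ed ≃ ZMod 4 ⊕ (Bool × Bool) where
  toFun
    | .C i => Sum.inl i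
    | .D s i => Sum.inr (s, i)
  invFun
    | Sum.inl i => .C i
    | Sum.inr (s, i) => .D s i
  left_inv e := by cases e <;> rfl
  right_inv e := by rcases e with _ | ⟨_, _⟩ <;> rfl

def fcEquiv : Fc ≃ Bool × ZMod 4 where
  toFun
    | .T s i => (s, i)
  invFun x := .T x.1 x.2
  left_inv e := by cases e; rfl
  right_inv e := rfl

instance : Fintype Ed := Fintype.ofEquiv _ edEquiv.symm
instance : Fintype Fc := Fintype.ofEquiv _ fcEquiv.symm

theorem card_ed : Fintype.card Ed = 8 := by
  rw [Fintype.card_congr edEquiv]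
  simp only [Fintype.card_sum, Fintype.card_prod, Fintype.card_bool, ZMod.card]

theorem card_fc : Fintype.card Fc = 8 := by
  rw [Fintype.card_congr fcEquiv]
  simp only [Fintype.card_prod, Fintype.card_bool, ZMod.card]

theorem sum_ed (f : Ed → ℕ) : ∑ e, f e = ∑ i : ZMod 4, f (.C i) + (f (.D true true) +
    f (.D true false) + (f (.D false true) + f (.D false false))) := by
  rw [← edEquiv.symm.sum_comp]
  simp only [Fintype.sum_sum_type, Fintype.sum_prod_type, Fintype.sum_bool, edEquiv,
    Equiv.coe_fn_symm_mk]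

theorem card_cr : Nat.card (Σ e : Ed, Fin (len e)) = 4 := by
  rw [Nat.card_eq_fintype_card, Fintype.card_sigma]
  simp only [Fintype.card_fin]
  rw [sum_ed]
  simp only [len, Finset.sum_const, Finset.card_univ, ZMod.card, smul_eq_mul]

theorem card_seg : Nat.card (Σ e : Ed, Fin (len e + 1)) = 12 := by
  rw [Nat.card_eq_fintype_card, Fintype.card_sigma]
  simp only [Fintype.card_fin]
  rw [sum_ed]
  simp only [len, Finset.sum_const, Finset.card_univ, ZMod.card, smul_eq_mul]

/-- the drawing -/
def draw : Drawing (ZMod 4) Ed Fc :=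
  skel.toDrawing (by
    show 2 * Nat.card (ZMod 4) + Nat.card (Σ e : Ed, Fin (len e)) + 2 * Nat.card Fc =
      2 * Nat.card (Σ e : Ed, Fin (len e + 1)) + 4
    rw [card_cr, card_seg, Nat.card_eq_fintype_card, Nat.card_eq_fintype_card, card_fc, ZMod.card])

theorem loopless : draw.Loopless := by
  intro e
  rcases e with i | ⟨s, i⟩
  · show i ≠ i + 1
    revert i
    decide
  · show pos i false ≠ pos i true
    revert i
    decide

theorem simple : draw.Simple := by
  constructor
  · rintro ⟨i | ⟨s, i⟩, j⟩ b b'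
    · exact j.elim0
    · show pos i b ≠ pos (!i) b'
      clear j
      revert i b b'
      decide
  · rintro ⟨e, j⟩ ⟨e', j'⟩ h h'
    dsimp only at h
    subst h
    rcases e with i | ⟨s, i⟩
    · exact j.elim0
    · change Fin 1 at j
      change Fin 1 at j'
      rw [Subsingleton.elim j j']

theorem fanPlanar : draw.FanPlanar := by
  intro e
  rcases e with i | ⟨s, i⟩
  · exact Or.inl ⟨0, fun j => j.elim0⟩
  · exact Or.inl ⟨draw.leftEnd ⟨.D s i, (0 : Fin 1)⟩, fun j => by
      change Fin 1 at j
      rw [Subsingleton.elim j 0]⟩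

/-- the faces at the vertex `1` or `0` -/
def reg (i : Bool) : Fc → Bool
  | .T _ j => if i then decide (j = 1) || decide (j = 2) else decide (j = 0) || decide (j = 1)

theorem region (s i : Bool) :
    draw.Region (.D s i) (.D (!s) i) {f | reg i f = true} := by
  rintro ⟨⟨j | ⟨t, j⟩, q⟩, b⟩
  · change Fin 1 at q
    show (reg i (.T (!b) j) = true ↔ reg i (.T (!!b) j) = true) ↔
      (Ed.C j ≠ Ed.D s i ∧ Ed.C j ≠ Ed.D (!s) i)
    simp [reg]
  · change Fin 2 at q
    show (reg i (face (⟨.D t j, q⟩, b)) = true ↔ reg i (face (⟨.D t j, q⟩, !b)) = true) ↔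
      (Ed.D t j ≠ Ed.D s i ∧ Ed.D t j ≠ Ed.D (!s) i)
    revert i j b s t
    fin_cases q <;> decide

theorem par (e e' : Ed) (hne : e ≠ e')
    (h : ({vert (e, false), vert (e, true)} : Set (ZMod 4)) =
      {vert (e', false), vert (e', true)}) :
    ∃ s i, e = .D s i ∧ e' = .D (!s) i := by
  rw [Set.pair_eq_pair_iff] at h
  rcases e with i | ⟨s, i⟩ <;> rcases e' with j | ⟨t, j⟩ <;> simp only [vert] at h
  · exfalso
    have : ∀ i j : ZMod 4, i = j ∧ i + 1 = j + 1 ∨ i = j + 1 ∧ i + 1 = j → i = j := by decide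
    exact hne (by rw [this i j h])
  · exfalso
    revert h
    clear hne
    revert i j
    decide
  · exfalso
    revert h
    clear hne
    revert i j
    decide
  · have : ∀ i j : Bool, pos i false = pos j false ∧ pos i true = pos j true ∨
      pos i false = pos j true ∧ pos i true = pos j false → i = j := by decide
    have hij := this i j h
    subst hij
    have hst : s ≠ t := fun h => hne (by rw [h])
    refine ⟨s, i, rfl, ?_⟩
    cases s <;> cases t <;> simp at hst ⊢

theorem nonHomotopic : draw.NonHomotopic := by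
  intro e e' hne h
  obtain ⟨s, i, rfl, rfl⟩ := par e e' hne h
  clear hne h
  cases i
  · refine ⟨_, region s false, ⟨1, ?_, ?_, ?_⟩, ⟨3, ?_, ?_, ?_⟩⟩
    · show (1 : ZMod 4) ≠ pos false false
      decide
    · show (1 : ZMod 4) ≠ pos false true
      decide
    · show reg false (.T false 1) = true
      decide
    · show (3 : ZMod 4) ≠ pos false false
      decide
    · show (3 : ZMod 4) ≠ pos false true
      decide
    · show ¬ reg false (.T false 3) = true
      decide
  · refine ⟨_, region s true, ⟨2, ?_, ?_, ?_⟩, ⟨0, ?_, ?_, ?_⟩⟩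
    · show (2 : ZMod 4) ≠ pos true false
      decide
    · show (2 : ZMod 4) ≠ pos true true
      decide
    · show reg true (.T false 2) = true
      decide
    · show (0 : ZMod 4) ≠ pos true false
      decide
    · show (0 : ZMod 4) ≠ pos true true
      decide
    · show ¬ reg true (.T false 0) = true
      decide

end Pool.Agent.H85.FP.Quad
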