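import Pool.Graph.R_pool_sql_team_seeded_3997aac3.Q238.FP.Final

/-!
# Upper bounds for drawings with few crossing points, and for three and four vertices
-/

set_option autoImplicit false

namespace Pool.Agent.H85.FP

open Pool.Agent.Q238.FP

section sums

variable {V E F : Type} (G : Drawing V E F)

open Classical in
/-- Sums over the boundary walks. -/
theorem sum_walks [Fintype G.Dart] [Fintype G.Walk] (W : G.Dart → ℕ) (c : ℕ)
    (h : ∀ d : G.Dart, G.Sg d → ∃ S : Finset G.Dart,
      (∀ x ∈ S, (Quot.mk _ x : G.Walk) = Quot.mk _ d) ∧ c ≤ ∑ x ∈ S, W x) :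
    c * (Finset.univ.filter G.SgW).card ≤ ∑ x, W x := by
  have h1 := Finset.sum_fiberwise (Finset.univ : Finset G.Dart)
    (fun x => (Quot.mk _ x : G.Walk)) W
  rw [← h1, Nat.mul_comm, ← smul_eq_mul, ← Finset.sum_const]
  refine le_trans (Finset.sum_le_sum (fun o ho => ?_)) (Finset.sum_le_sum_of_subset
    (f := fun o : G.Walk => ∑ x ∈ Finset.univ.filter
      (fun x => (Quot.mk _ x : G.Walk) = o), W x) (Finset.filter_subset G.SgW _))
  rw [Finset.mem_filter] at ho
  induction o using Quot.ind with
  | mk d =>
    obtain ⟨S, hS, hc⟩ := h d ((G.sgW_mk d).1 ho.2)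
    refine le_trans hc (Finset.sum_le_sum_of_subset (fun x hx => ?_))
    rw [Finset.mem_filter]
    exact ⟨Finset.mem_univ _, hS x hx⟩

theorem walk_iter (d : G.Dart) : (Quot.mk _ (G.next d) : G.Walk) = Quot.mk _ d ∧
    (Quot.mk _ (G.next (G.next d)) : G.Walk) = Quot.mk _ d ∧
    (Quot.mk _ (G.next (G.next (G.next d))) : G.Walk) = Quot.mk _ d := by
  have h1 := G.walk_next d
  have h2 := (G.walk_next (G.next d)).trans h1
  exact ⟨h1, h2, (G.walk_next _).trans h2⟩

variable [Fintype V] [Fintype E] [Finite F]

theorem third (h3 : 3 ≤ Fintype.card V) : ∀ a b : V, ∃ c, c ≠ a ∧ c ≠ b := by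
  classical
  intro a b
  by_contra hc
  push Not at hc
  have : (Finset.univ : Finset V) ⊆ {a, b} := by
    intro c _
    simp only [Finset.mem_insert, Finset.mem_singleton]
    by_cases hca : c = a
    · exact Or.inl hca
    · exact Or.inr (hc c hca)
  have h4 := Finset.card_le_card this
  have h5 := Finset.card_le_two (a := a) (b := b)
  rw [Finset.card_univ] at h4
  omega

open Classical in
/-- Drawings in which each edge is crossed at most once. -/
theorem card_le_one (hl : G.Loopless) (hs : G.Simple) (hf : G.FanPlanar) (hh : G.NonHomotopic)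
    (h3 : 3 ≤ Fintype.card V) (h1 : ∀ e, G.len e ≤ 1) :
    Fintype.card E + 8 ≤ 4 * Fintype.card V := by
  rcases isEmpty_or_nonempty E with hE | hE
  · rw [Fintype.card_eq_zero]
    omega
  have iF : Fintype F := Fintype.ofFinite F
  have iD : Fintype G.Dart := Fintype.ofFinite _
  have iW : Fintype G.Walk := Fintype.ofFinite _
  have iI : Fintype G.Iso := Fintype.ofFinite _
  let C := G.toCore hl hs hf hh (third h3)
  have m := sum_walks G (fun x => if G.mu (G.rev x) = 0 then 3 else 2) 8 (by
    intro d hd
    have n1 : ∀ x : G.Dart, G.next x ≠ x := fun x => C.no1 x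
    have n2 : G.next (G.next d) ≠ d := fun h => C.no2 (d := d) hd h
    have hd' : G.Sg (G.next d) := (G.sg_next d).2 hd
    have n2' : G.next (G.next (G.next d)) ≠ G.next d := fun h => C.no2 (d := G.next d) hd' h
    obtain ⟨w1, w2, w3⟩ := walk_iter G d
    have key : ∀ x : G.Dart, G.mu (G.rev x) ≠ 0 → G.mu (G.rev (G.next x)) = 0 := by
      intro x hx
      rw [← G.real_mu]
      have h2 := G.mu_add x
      have h3 := h1 x.1.1
      omega
    by_cases h4 : G.next (G.next (G.next d)) = d
    · refine ⟨{d, G.next d, G.next (G.next d)}, ?_, ?_⟩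
      · intro x hx
        simp only [Finset.mem_insert, Finset.mem_singleton] at hx
        rcases hx with rfl | rfl | rfl
        · rfl
        · exact w1
        · exact w2
      · rw [Finset.sum_insert, Finset.sum_insert, Finset.sum_singleton]
        · have k1 := key d
          have k2 := key (G.next d)
          have k3 := key (G.next (G.next d))
          rw [h4] at k3
          split_ifs <;> omega
        · simp only [Finset.mem_singleton]
          exact (n1 (G.next d)).symm
        · simp only [Finset.mem_insert, Finset.mem_singleton, not_or]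
          exact ⟨(n1 d).symm, n2.symm⟩
    · refine ⟨{d, G.next d, G.next (G.next d), G.next (G.next (G.next d))}, ?_, ?_⟩
      · intro x hx
        simp only [Finset.mem_insert, Finset.mem_singleton] at hx
        rcases hx with rfl | rfl | rfl | rfl
        · rfl
        · exact w1
        · exact w2
        · exact w3
      · have hc : ({d, G.next d, G.next (G.next d), G.next (G.next (G.next d))} :
            Finset G.Dart).card = 4 := by
          rw [Finset.card_insert_of_notMem, Finset.card_insert_of_notMem,
            Finset.card_insert_of_notMem, Finset.card_singleton]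
          · simp only [Finset.mem_singleton]
            exact (n1 _).symm
          · simp only [Finset.mem_insert, Finset.mem_singleton, not_or]
            exact ⟨(n1 _).symm, n2'.symm⟩
          · simp only [Finset.mem_insert, Finset.mem_singleton, not_or]
            exact ⟨(n1 _).symm, n2.symm, fun h => h4 h.symm⟩
        calc 8 = 4 * 2 := rfl
          _ = ∑ x ∈ ({d, G.next d, G.next (G.next d), G.next (G.next (G.next d))} :
                Finset G.Dart), 2 := by rw [Finset.sum_const, hc, smul_eq_mul]
          _ ≤ _ := by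
            apply Finset.sum_le_sum
            intro x _
            split_ifs <;> omega)
  have e0 : ∑ x : G.Dart, (if G.mu (G.rev x) = 0 then 3 else 2) =
      3 * (Finset.univ.filter (fun x : G.Dart => G.mu (G.rev x) = 0)).card +
        2 * (Finset.univ.filter (fun x : G.Dart => ¬ G.mu (G.rev x) = 0)).card := by
    rw [Finset.sum_ite, Finset.sum_const, Finset.sum_const, smul_eq_mul, smul_eq_mul,
      Nat.mul_comm 3, Nat.mul_comm 2]
  rw [e0] at m
  have e1 := G.card_real
  have e2 : (Finset.univ.filter (fun x : G.Dart => G.mu (G.rev x) = 0)).card +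
      (Finset.univ.filter (fun x : G.Dart => ¬ G.mu (G.rev x) = 0)).card = Fintype.card G.Dart := by
    rw [Finset.card_filter_add_card_filter_not, Finset.card_univ]
  have e4 := G.card_dart
  have e5 := G.card_seg
  have e6 := G.faces
  have e7 := G.euler
  have e8 := G.card_face
  rw [Nat.card_eq_fintype_card (α := G.Walk), Nat.card_eq_fintype_card (α := G.Iso)] at e7 e8
  rw [Nat.card_eq_fintype_card (α := V)] at e7
  rw [Nat.card_eq_fintype_card (α := F)] at e8
  omega

open Classical in
/-- Drawings without crossings. -/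
theorem card_planar (hl : G.Loopless) (hs : G.Simple) (hf : G.FanPlanar) (hh : G.NonHomotopic)
    (h3 : 3 ≤ Fintype.card V) (h1 : ∀ e, G.len e = 0) :
    Fintype.card E + 6 ≤ 3 * Fintype.card V := by
  rcases isEmpty_or_nonempty E with hE | hE
  · rw [Fintype.card_eq_zero]
    omega
  have iF : Fintype F := Fintype.ofFinite F
  have iD : Fintype G.Dart := Fintype.ofFinite _
  have iW : Fintype G.Walk := Fintype.ofFinite _
  have iI : Fintype G.Iso := Fintype.ofFinite _
  let C := G.toCore hl hs hf hh (third h3)
  have m := sum_walks G (fun x => 1) 3 (by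
    intro d hd
    have n1 : ∀ x : G.Dart, G.next x ≠ x := fun x => C.no1 x
    have n2 : G.next (G.next d) ≠ d := fun h => C.no2 (d := d) hd h
    obtain ⟨w1, w2, -⟩ := walk_iter G d
    refine ⟨{d, G.next d, G.next (G.next d)}, ?_, ?_⟩
    · intro x hx
      simp only [Finset.mem_insert, Finset.mem_singleton] at hx
      rcases hx with rfl | rfl | rfl
      · rfl
      · exact w1
      · exact w2
    · rw [Finset.sum_const, Finset.card_insert_of_notMem, Finset.card_insert_of_notMem,
        Finset.card_singleton, smul_eq_mul]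
      · simp only [Finset.mem_singleton]
        exact (n1 (G.next d)).symm
      · simp only [Finset.mem_insert, Finset.mem_singleton, not_or]
        exact ⟨(n1 d).symm, n2.symm⟩)
  rw [Finset.sum_const, Finset.card_univ, smul_eq_mul, Nat.mul_one] at m
  have e4 := G.card_dart
  have e5 := G.card_seg
  have e9 : Nat.card (Σ e, Fin (G.len e)) = 0 := by
    rw [Nat.card_eq_fintype_card, Fintype.card_sigma]
    simp [h1]
  have e6 := G.faces
  have e7 := G.euler
  have e8 := G.card_face
  rw [Nat.card_eq_fintype_card (α := G.Walk), Nat.card_eq_fintype_card (α := G.Iso)] at e7 e8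
  rw [Nat.card_eq_fintype_card (α := V)] at e7
  rw [Nat.card_eq_fintype_card (α := F)] at e8
  omega

end sums

section small

variable {V E F : Type} (G : Drawing V E F)

/-- the four ends of two crossing edges are distinct -/
theorem four_ends (hl : G.Loopless) (hs : G.Simple) (x : Σ e, Fin (G.len e)) :
    [G.vert (x.1, false), G.vert (x.1, true), G.vert ((G.cr x).1, false),
      G.vert ((G.cr x).1, true)].Nodup := by
  have h := hs.1 x
  simp only [List.nodup_cons, List.mem_cons, List.not_mem_nil, or_false, not_or, List.nodup_nil,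
    and_true, not_false_eq_true]
  exact ⟨⟨hl _, h _ _, h _ _⟩, ⟨h _ _, h _ _⟩, hl _⟩

theorem len_zero [Fintype V] (hl : G.Loopless) (hs : G.Simple) (h3 : Fintype.card V = 3) (e : E) :
    G.len e = 0 := by
  classical
  by_contra h
  have h1 := four_ends G hl hs ⟨e, ⟨0, Nat.pos_of_ne_zero h⟩⟩
  have h2 := List.Nodup.length_le_card h1
  simp only [List.length_cons, List.length_nil] at h2
  omega

variable {G}

theorem loc_iff {A : Set F} {e e' : E} (hA : G.Region e e' A) (y : E × Bool)
    (h : ∀ b, G.vert y ≠ G.vert (e, b)) (h' : ∀ b, G.vert y ≠ G.vert (e', b)) [Finite E] :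
    G.face (G.out y) ∈ A ↔ G.loc (G.vert y) ∈ A := by
  obtain ⟨y0, h0, h1⟩ := G.face_loc y
  rw [← h1]
  obtain ⟨i, hi⟩ := ((G.rot_vert y0 y).2 h0).exists_nat_pow_eq
  have key : ∀ i : ℕ, (G.face (G.out ((G.rot ^ i) y0)) ∈ A ↔ G.face (G.out y0) ∈ A) ∧
      G.vert ((G.rot ^ i) y0) = G.vert y := by
    intro i
    induction i with
    | zero => exact ⟨Iff.rfl, h0⟩
    | succ i ih =>
      rw [pow_succ', Equiv.Perm.mul_apply]
      refine ⟨?_, by rw [G.vert_rot, ih.2]⟩
      rw [← ih.1, ← G.next_rev_out, G.face_next]
      have h2 := (hA (G.out ((G.rot ^ i) y0))).2 ⟨?_, ?_⟩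
      · exact h2.symm
      · intro h3
        refine h ((G.rot ^ i) y0).2 ?_
        rw [← ih.2, ← h3]
        rfl
      · intro h3
        refine h' ((G.rot ^ i) y0).2 ?_
        rw [← ih.2, ← h3]
        rfl
  rw [← hi]
  exact (key i).1

theorem step_iff {A : Set F} {e e' : E} (hA : G.Region e e' A) (x : Σ e, Fin (G.len e)) :
    (G.face (G.arr x true) ∈ A ↔ G.face (G.leave x true) ∈ A) ↔
      (G.cr x).1 ≠ e ∧ (G.cr x).1 ≠ e' := by
  have h1 := hA (G.next (G.arr x true))
  rw [G.face_next] at h1
  have h2 : G.face (G.rev (G.next (G.arr x true))) = G.face (G.leave x true) := by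
    rw [← G.straight x true, G.face_next]
  rw [h2] at h1
  have h3 : (G.next (G.arr x true)).1.1 = (G.cr x).1 := by
    rw [G.next_arr]
    rfl
  rwa [h3] at h1

theorem len_le_one [Fintype V] [Finite E] (hl : G.Loopless) (hs : G.Simple)
    (hh : G.NonHomotopic) (h4 : Fintype.card V = 4) (e : E) : G.len e ≤ 1 := by
  classical
  by_contra hlen
  have hlen' : 2 ≤ G.len e := by omega
  let x0 : Σ e, Fin (G.len e) := ⟨e, ⟨0, by omega⟩⟩
  let x1 : Σ e, Fin (G.len e) := ⟨e, ⟨1, by omega⟩⟩
  have hne : (G.cr x0).1 ≠ (G.cr x1).1 := by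
    intro h
    have h2 := hs.2 x0 x1 rfl h
    have h3 := (Sigma.mk.inj_iff.1 h2).2
    have h5 := congrArg Fin.val (eq_of_heq h3)
    simp at h5
  set e1 := (G.cr x0).1 with he1
  set e2 := (G.cr x1).1 with he2
  have d1 := hs.1 x0
  have d2 := hs.1 x1
  rw [← he1] at d1
  rw [← he2] at d2
  change ∀ b b', G.vert (e, b) ≠ _ at d1
  change ∀ b b', G.vert (e, b) ≠ _ at d2
  -- all vertices
  have huniv : ∀ v, v = G.vert (e, false) ∨ v = G.vert (e, true) ∨ v = G.vert (e1, false) ∨
      v = G.vert (e1, true) := by
    have h1 := four_ends G hl hs x0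
    rw [← he1] at h1
    have h2 : ([G.vert (e, false), G.vert (e, true), G.vert (e1, false),
      G.vert (e1, true)].toFinset) = Finset.univ := by
      apply Finset.eq_univ_of_card
      rw [List.toFinset_card_of_nodup h1, h4]
      rfl
    intro v
    have h3 : v ∈ [G.vert (e, false), G.vert (e, true), G.vert (e1, false),
      G.vert (e1, true)].toFinset := by rw [h2]; exact Finset.mem_univ v
    simpa using h3
  have hpar : ({G.vert (e1, false), G.vert (e1, true)} : Set V) =
      {G.vert (e2, false), G.vert (e2, true)} := by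
    rw [Set.pair_eq_pair_iff]
    have hl2 := hl e2
    rcases huniv (G.vert (e2, false)) with h | h | h | h
    · exact absurd h.symm (d2 _ _)
    · exact absurd h.symm (d2 _ _)
    · rcases huniv (G.vert (e2, true)) with h' | h' | h' | h'
      · exact absurd h'.symm (d2 _ _)
      · exact absurd h'.symm (d2 _ _)
      · exact absurd (h.trans h'.symm) hl2
      · exact Or.inl ⟨h.symm, h'.symm⟩
    · rcases huniv (G.vert (e2, true)) with h' | h' | h' | h'
      · exact absurd h'.symm (d2 _ _)
      · exact absurd h'.symm (d2 _ _)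
      · exact Or.inr ⟨h'.symm, h.symm⟩
      · exact absurd (h.trans h'.symm) hl2
  obtain ⟨A, hA, ⟨v, hv1, hv2, hv3⟩, ⟨w, hw1, hw2, hw3⟩⟩ := hh e1 e2 hne hpar
  -- the two ends of `e` are on the same side
  have hend : G.loc (G.vert (e, false)) ∈ A ↔ G.loc (G.vert (e, true)) ∈ A := by
    rw [← loc_iff hA (e, false) (fun b => d1 _ _) (fun b => d2 _ _),
      ← loc_iff hA (e, true) (fun b => d1 _ _) (fun b => d2 _ _)]
    have hee1 : e ≠ e1 := by
      intro h
      exact d1 false false (by rw [← h])
    have hee2 : e ≠ e2 := by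
      intro h
      exact d2 false false (by rw [← h])
    have hlast := (hA (G.out (e, true))).2 ⟨hee1, hee2⟩
    rw [hlast]
    have seg : ∀ i : ℕ, (hi : i < G.len e) →
        ((G.face (⟨e, ⟨i, by omega⟩⟩, true) ∈ A ↔ G.face (⟨e, ⟨i + 1, by omega⟩⟩, true) ∈ A) ↔
          1 < i) := by
      intro i hi
      have h1 := step_iff hA ⟨e, ⟨i, hi⟩⟩
      rw [G.arr_true, G.leave_true] at h1
      refine h1.trans ⟨?_, ?_⟩
      · rintro ⟨h2, h3⟩
        by_contra h5
        have : i = 0 ∨ i = 1 := by omega
        rcases this with rfl | rfl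
        · exact h2 he1.symm
        · exact h3 he2.symm
      · intro h2
        constructor
        · intro h3
          have h5 := hs.2 ⟨e, ⟨i, hi⟩⟩ x0 rfl (h3.trans he1)
          have h6 := congrArg Fin.val (eq_of_heq (Sigma.mk.inj_iff.1 h5).2)
          simp at h6
          omega
        · intro h3
          have h5 := hs.2 ⟨e, ⟨i, hi⟩⟩ x1 rfl (h3.trans he2)
          have h6 := congrArg Fin.val (eq_of_heq (Sigma.mk.inj_iff.1 h5).2)
          simp at h6
          omega
    have s0 := seg 0 (by omega)
    have s1 := seg 1 (by omega)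
    have s2 : ∀ j : ℕ, (hj : 2 + j ≤ G.len e) → (G.face (⟨e, ⟨2, by omega⟩⟩, true) ∈ A ↔
        G.face (⟨e, ⟨2 + j, by omega⟩⟩, true) ∈ A) := by
      intro j
      induction j with
      | zero => intro _; rfl
      | succ j ih =>
        intro hj
        rw [ih (by omega)]
        exact (seg (2 + j) (by omega)).2 (by omega)
    have s3 := s2 (G.len e - 2) (by omega)
    have hout : G.out (e, false) = (⟨e, ⟨0, by omega⟩⟩, true) := rfl
    have hout2 : G.rev (G.out (e, true)) = (⟨e, ⟨2 + (G.len e - 2), by omega⟩⟩, true) := by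
      simp only [Data.out, Data.rev, if_true, Bool.not_true, Bool.not_false, Prod.mk.injEq,
        and_true, Sigma.mk.injEq, heq_eq_eq, true_and]
      apply Fin.ext
      simp only [Fin.val_last]
      omega
    rw [hout, hout2, ← s3]
    have t0 : ¬ (1 < 0) := by omega
    have t1 : ¬ (1 < 1) := by omega
    simp only [Nat.reduceAdd] at s0 s1
    have u0 := (not_congr s0).2 t0
    have u1 := (not_congr s1).2 t1
    by_cases a0 : G.face (⟨e, ⟨0, by omega⟩⟩, true) ∈ A <;>
      by_cases a1 : G.face (⟨e, ⟨1, by omega⟩⟩, true) ∈ A <;>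
      by_cases a2 : G.face (⟨e, ⟨2, by omega⟩⟩, true) ∈ A <;>
      simp only [a0, a1, a2, not_true_eq_false, iff_true, iff_false, not_false_eq_true,
        true_iff, false_iff] at u0 u1 ⊢
  rcases huniv v with h | h | h | h <;> rcases huniv w with h' | h' | h' | h' <;>
    first
      | exact hv1 h
      | exact hv2 h
      | exact hw1 h'
      | exact hw2 h'
      | (rw [h] at hv3; rw [h'] at hw3; exact hw3 hv3)
      | (rw [h] at hv3; rw [h'] at hw3; exact hw3 (hend.1 hv3))
      | (rw [h] at hv3; rw [h'] at hw3; exact hw3 (hend.2 hv3))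

end small

end Pool.Agent.H85.FP
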