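import Pool.Agent.H85.FP.Build

/-!
# The drawing with three vertices: a triangle
-/

set_option autoImplicit false

namespace Pool.Agent.H85.FP.Tri

open Pool.Agent.Q238.FP

/-- the edge `i` joins `i` and `i + 1` -/
abbrev Ed : Type := ZMod 3

def vert : Ed × Bool → ZMod 3
  | (i, false) => i
  | (i, true) => i + 1

def rot : Equiv.Perm (Ed × Bool) where
  toFun
    | (j, true) => (j + 1, false)
    | (j, false) => (j - 1, true)
  invFun
    | (j, true) => (j + 1, false)
    | (j, false) => (j - 1, true)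
  left_inv x := by
    rcases x with ⟨_, _ | _⟩ <;> simp
  right_inv x := by
    rcases x with ⟨_, _ | _⟩ <;> simp

theorem vert_rot (x : Ed × Bool) : vert (rot x) = vert x := by
  rcases x with ⟨i, _ | _⟩ <;> simp [rot, vert]

/-- the standard edge end at a vertex -/
def vx (i : ZMod 3) : Ed × Bool := (i, false)

theorem vert_vx (v : ZMod 3) : vert (vx v) = v := rfl

theorem sc_vx (x : Ed × Bool) : rot.SameCycle x (vx (vert x)) := by
  rcases x with ⟨i, _ | _⟩
  · exact Equiv.Perm.SameCycle.refl _ _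
  · exact ⟨1, rfl⟩

def G : Data (ZMod 3) Ed where
  vert := vert
  len _ := 0
  cr x := x
  toLeft _ := true
  rot := rot
  cr_cr _ := rfl
  toLeft_cr x := x.2.elim0
  rot_vert x y := sameCycle_iff rot vert vx vert_rot sc_vx x y

def face (d : (Σ _ : Ed, Fin (0 + 1)) × Bool) : Bool := d.2

def rep (f : Bool) : (Σ _ : Ed, Fin (0 + 1)) × Bool := (⟨0, 0⟩, f)

theorem face_next (d : G.Dart) : face (G.next d) = face d := by
  rcases d with ⟨⟨i, j⟩, b⟩
  change Fin 1 at j
  fin_cases j
  cases b <;> rfl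

theorem orb (d : G.Dart) : ∃ m : ℕ, G.next^[m] (rep (face d)) = d := by
  rcases d with ⟨⟨i, j⟩, b⟩
  change Fin 1 at j
  change Fin 3 at i
  fin_cases j
  fin_cases i <;> cases b
  all_goals first
    | exact ⟨0, rfl⟩
    | exact ⟨1, rfl⟩
    | exact ⟨2, rfl⟩

theorem conn (Q : Bool → Prop) (h : ∀ d, Q (face d) ↔ Q (face (G.rev d))) (f : Bool) :
    Q f ↔ Q true := by
  cases f
  · exact h (⟨0, 0⟩, false)
  · rfl

def skel : Skel G Bool where
  face := face
  rep := rep
  vx := vx
  f0 := true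
  face_next := face_next
  face_rep _ := rfl
  orb := orb
  vert_vx := vert_vx
  conn := conn

theorem card_cr : Nat.card (Σ _ : Ed, Fin 0) = 0 := by
  rw [Nat.card_eq_fintype_card, Fintype.card_sigma]
  simp

theorem card_seg : Nat.card (Σ _ : Ed, Fin (0 + 1)) = 3 := by
  rw [Nat.card_eq_fintype_card, Fintype.card_sigma]
  simp

/-- the drawing -/
def draw : Drawing (ZMod 3) Ed Bool :=
  skel.toDrawing (by
    show 2 * Nat.card (ZMod 3) + Nat.card (Σ _ : Ed, Fin 0) + 2 * Nat.card Bool =
      2 * Nat.card (Σ _ : Ed, Fin (0 + 1)) + 4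
    rw [card_cr, card_seg, Nat.card_eq_fintype_card, Nat.card_eq_fintype_card, ZMod.card,
      Fintype.card_bool])

theorem loopless : draw.Loopless := by
  intro e
  show e ≠ e + 1
  revert e
  decide

theorem simple : draw.Simple := ⟨fun x => x.2.elim0, fun x => x.2.elim0⟩

theorem fanPlanar : draw.FanPlanar := fun _ => Or.inl ⟨0, fun j => j.elim0⟩

theorem nonHomotopic : draw.NonHomotopic := by
  intro e e' hne h
  exfalso
  change ({e, e + 1} : Set (ZMod 3)) = {e', e' + 1} at h
  rw [Set.pair_eq_pair_iff] at h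
  have : ∀ i j : ZMod 3, i = j ∧ i + 1 = j + 1 ∨ i = j + 1 ∧ i + 1 = j → i = j := by decide
  exact hne (this e e' h)

end Pool.Agent.H85.FP.Tri
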