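import Pool.Agent.H85.FP.Build

/-!
# The double wheel

The drawing of a multigraph with `k + 2` vertices (`k ≥ 4`) and `5 k` edges: a cycle (the equator)
with `k` vertices, a pole on each side; on each side the pole is joined to all vertices of the
cycle, and for each vertex of the cycle its two neighbours are joined by an edge which passes
between this vertex and the pole.
-/

set_option autoImplicit false

namespace Pool.Agent.H85.FP.Wheel

open Pool.Agent.Q238.FP

/-- The edges: `C i` on the equator from `i` to `i + 1`, `A s i` from the pole `s` to `i`, and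
`N s i` from `i - 1` to `i + 1` passing `i` on the side `s`. -/
inductive Ed (k : ℕ)
  | C (i : ZMod k)
  | A (s : Bool) (i : ZMod k)
  | N (s : Bool) (i : ZMod k)

/-- the faces: at the pole, at the equator, and two faces at each vertex of the equator -/
inductive Fc (k : ℕ)
  | P (s : Bool) (i : ZMod k)
  | T (s : Bool) (i : ZMod k)
  | L (s : Bool) (i : ZMod k)
  | R (s : Bool) (i : ZMod k)

variable {k : ℕ}

def len : Ed k → ℕ
  | .C _ => 0
  | .A _ _ => 1
  | .N _ _ => 3

def vert : Ed k × Bool → Bool ⊕ ZMod k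
  | (.C i, false) => Sum.inr i
  | (.C i, true) => Sum.inr (i + 1)
  | (.A s _, false) => Sum.inl s
  | (.A _ i, true) => Sum.inr i
  | (.N _ i, false) => Sum.inr (i - 1)
  | (.N _ i, true) => Sum.inr (i + 1)

def cr : (Σ e : Ed k, Fin (len e)) → (Σ e : Ed k, Fin (len e))
  | ⟨.C i, j⟩ => ⟨.C i, j⟩
  | ⟨.A s i, _⟩ => ⟨.N s i, (1 : Fin 3)⟩
  | ⟨.N s i, (0 : Fin 3)⟩ => ⟨.N s (i - 1), (2 : Fin 3)⟩
  | ⟨.N s i, (1 : Fin 3)⟩ => ⟨.A s i, (0 : Fin 1)⟩
  | ⟨.N s i, (2 : Fin 3)⟩ => ⟨.N s (i + 1), (0 : Fin 3)⟩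

def toLeft : (Σ e : Ed k, Fin (len e)) → Bool
  | ⟨.C _, _⟩ => true
  | ⟨.A s _, _⟩ => !s
  | ⟨.N s _, (0 : Fin 3)⟩ => s
  | ⟨.N s _, (1 : Fin 3)⟩ => s
  | ⟨.N s _, (2 : Fin 3)⟩ => !s

def rotF : Ed k × Bool → Ed k × Bool
  | (.C j, true) => (.N false j, true)
  | (.N false j, true) => (.A false (j + 1), true)
  | (.A false j, true) => (.N false (j + 1), false)
  | (.N false j, false) => (.C (j - 1), false)
  | (.C j, false) => (.N true (j + 1), false)
  | (.N true j, false) => (.A true (j - 1), true)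
  | (.A true j, true) => (.N true (j - 1), true)
  | (.N true j, true) => (.C j, true)
  | (.A false j, false) => (.A false (j - 1), false)
  | (.A true j, false) => (.A true (j + 1), false)

def rotI : Ed k × Bool → Ed k × Bool
  | (.N false j, true) => (.C j, true)
  | (.A false j, true) => (.N false (j - 1), true)
  | (.N false j, false) => (.A false (j - 1), true)
  | (.C j, false) => (.N false (j + 1), false)
  | (.N true j, false) => (.C (j - 1), false)
  | (.A true j, true) => (.N true (j + 1), false)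
  | (.N true j, true) => (.A true (j + 1), true)
  | (.C j, true) => (.N true j, true)
  | (.A false j, false) => (.A false (j + 1), false)
  | (.A true j, false) => (.A true (j - 1), false)

def rot : Equiv.Perm (Ed k × Bool) where
  toFun := rotF
  invFun := rotI
  left_inv x := by
    rcases x with ⟨_ | ⟨_ | _, _⟩ | ⟨_ | _, _⟩, _ | _⟩ <;> simp [rotF, rotI]
  right_inv x := by
    rcases x with ⟨_ | ⟨_ | _, _⟩ | ⟨_ | _, _⟩, _ | _⟩ <;> simp [rotF, rotI]

theorem vert_rotF (x : Ed k × Bool) : vert (rotF x) = vert x := by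
  rcases x with ⟨_ | ⟨_ | _, _⟩ | ⟨_ | _, _⟩, _ | _⟩ <;> simp [rotF, vert]

theorem rot_sc (x : Ed k × Bool) : (rot : Equiv.Perm (Ed k × Bool)).SameCycle x (rotF x) :=
  ⟨1, by simp [rot]⟩

theorem sc_A (s : Bool) (i : ZMod k) (m : ℕ) :
    (rot : Equiv.Perm (Ed k × Bool)).SameCycle (.A s i, false) (.A s (i + m), false) := by
  induction m with
  | zero =>
    rw [Nat.cast_zero, add_zero]
  | succ m ih =>
    refine ih.trans ?_
    cases s
    · have := rot_sc (k := k) (.A false (i + (m + 1 : ℕ)), false)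
      have h2 : rotF (k := k) (.A false (i + (m + 1 : ℕ)), false) = (.A false (i + m), false) := by
        simp [rotF, add_sub_assoc]
      rw [h2] at this
      exact this.symm
    · have := rot_sc (k := k) (.A true (i + m), false)
      have h2 : rotF (k := k) (.A true (i + m), false) = (.A true (i + (m + 1 : ℕ)), false) := by
        simp [rotF, add_assoc]
      rwa [h2] at this

/-- the standard edge end at a vertex -/
def vx : Bool ⊕ ZMod k → Ed k × Bool
  | Sum.inl s => (.A s 0, false)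
  | Sum.inr i => (.C i, false)

theorem vert_vx (v : Bool ⊕ ZMod k) : vert (vx v) = v := by
  rcases v with s | i <;> simp [vx, vert]

theorem sc_vx [NeZero k] (x : Ed k × Bool) :
    (rot : Equiv.Perm (Ed k × Bool)).SameCycle x (vx (vert x)) := by
  have hN0 (i : ZMod k) : (rot : Equiv.Perm (Ed k × Bool)).SameCycle (.N false i, false)
      (.C (i - 1), false) := rot_sc _
  have hA0 (i : ZMod k) : (rot : Equiv.Perm (Ed k × Bool)).SameCycle (.A false i, true)
      (.C i, false) := by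
    refine (rot_sc _).trans ?_
    have := hN0 (i + 1)
    rwa [add_sub_cancel_right] at this
  have hN1 (i : ZMod k) : (rot : Equiv.Perm (Ed k × Bool)).SameCycle (.N false i, true)
      (.C (i + 1), false) := (rot_sc _).trans (hA0 _)
  have hC1 (i : ZMod k) : (rot : Equiv.Perm (Ed k × Bool)).SameCycle (.C i, true)
      (.C (i + 1), false) := (rot_sc _).trans (hN1 _)
  have hN1' (i : ZMod k) : (rot : Equiv.Perm (Ed k × Bool)).SameCycle (.N true i, true)
      (.C (i + 1), false) := (rot_sc _).trans (hC1 _)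
  have hA1 (i : ZMod k) : (rot : Equiv.Perm (Ed k × Bool)).SameCycle (.A true i, true)
      (.C i, false) := by
    refine (rot_sc _).trans ?_
    have := hN1' (i - 1)
    rwa [sub_add_cancel] at this
  have hN0' (i : ZMod k) : (rot : Equiv.Perm (Ed k × Bool)).SameCycle (.N true i, false)
      (.C (i - 1), false) := (rot_sc _).trans (hA1 _)
  rcases x with ⟨i | ⟨s, i⟩ | ⟨_ | _, i⟩, _ | _⟩
  · exact Equiv.Perm.SameCycle.refl _ _
  · exact hC1 i
  · have := sc_A s i (-i : ZMod k).val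
    rw [ZMod.natCast_zmod_val, add_neg_cancel] at this
    exact this
  · cases s
    · exact hA0 i
    · exact hA1 i
  · exact hN0 i
  · exact hN1 i
  · exact hN0' i
  · exact hN1' i

def G (k : ℕ) [NeZero k] : Data (Bool ⊕ ZMod k) (Ed k) where
  vert := vert
  len := len
  cr := cr
  toLeft := toLeft
  rot := rot
  cr_cr x := by
    rcases x with ⟨i | ⟨s, i⟩ | ⟨s, i⟩, j⟩
    · exact j.elim0
    · have : j = (0 : Fin 1) := Subsingleton.elim (α := Fin 1) _ _
      subst this
      rfl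
    · change Fin 3 at j
      fin_cases j
      · show (⟨.N s (i - 1 + 1), (0 : Fin 3)⟩ : Σ e : Ed k, Fin (len e)) = ⟨.N s i, (0 : Fin 3)⟩
        rw [sub_add_cancel]
      · rfl
      · show (⟨.N s (i + 1 - 1), (2 : Fin 3)⟩ : Σ e : Ed k, Fin (len e)) = ⟨.N s i, (2 : Fin 3)⟩
        rw [add_sub_cancel_right]
  toLeft_cr x := by
    rcases x with ⟨i | ⟨s, i⟩ | ⟨s, i⟩, j⟩
    · exact j.elim0
    · cases s <;> rfl
    · change Fin 3 at j
      fin_cases j <;> cases s <;> rfl
  rot_vert x y := sameCycle_iff rot vert vx vert_rotF sc_vx x y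

/-- the faces on the left of the edges which pass a vertex, on the side of the pole -/
def fo (s : Bool) (i : ZMod k) : Fin 4 → Fc k
  | 0 => .R s (i - 1)
  | 1 => .P s (i - 1)
  | 2 => .P s i
  | 3 => .L s (i + 1)

/-- the faces on the side of the equator -/
def fi (s : Bool) (i : ZMod k) : Fin 4 → Fc k
  | 0 => .T s (i - 1)
  | 1 => .L s i
  | 2 => .R s i
  | 3 => .T s i

def face : (Σ e : Ed k, Fin (len e + 1)) × Bool → Fc k
  | (⟨.C i, _⟩, b) => .T (!b) i
  | (⟨.A s i, (0 : Fin 2)⟩, b) => if b = s then .P s (i - 1) else .P s i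
  | (⟨.A s i, (1 : Fin 2)⟩, b) => if b = s then .L s i else .R s i
  | (⟨.N s i, j⟩, b) => if b = s then fi s i j else fo s i j

def rep : Fc k → (Σ e : Ed k, Fin (len e + 1)) × Bool
  | .P s i => (⟨.A s i, (0 : Fin 2)⟩, !s)
  | .T s i => (⟨.C i, (0 : Fin 1)⟩, !s)
  | .L s i => (⟨.A s i, (1 : Fin 2)⟩, s)
  | .R s i => (⟨.A s i, (1 : Fin 2)⟩, !s)

theorem face_rep (f : Fc k) : face (rep f) = f := by
  rcases f with ⟨_ | _, i⟩ | ⟨_ | _, i⟩ | ⟨_ | _, i⟩ | ⟨_ | _, i⟩ <;> rfl

section

variable [NeZero k]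

theorem face_next (d : (G k).Dart) : face ((G k).next d) = face d := by
  rcases d with ⟨⟨i | ⟨s, i⟩ | ⟨s, i⟩, j⟩, b⟩
  · change Fin 1 at j
    fin_cases j
    cases b
    · show Fc.T true (i + 1 - 1) = Fc.T true i
      rw [add_sub_cancel_right]
    · rfl
  · change Fin 2 at j
    fin_cases j <;> cases s <;> cases b
    all_goals first
      | rfl
      | exact congrArg (Fc.P _) (add_sub_cancel_right i 1)
      | exact congrArg (Fc.P _) (sub_add_cancel i 1)
      | exact congrArg (Fc.T _) (add_sub_cancel_right i 1)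
      | exact congrArg (Fc.T _) (sub_add_cancel i 1)
      | exact congrArg (Fc.L _) (add_sub_cancel_right i 1)
      | exact congrArg (Fc.L _) (sub_add_cancel i 1)
      | exact congrArg (Fc.R _) (add_sub_cancel_right i 1)
      | exact congrArg (Fc.R _) (sub_add_cancel i 1)
  · change Fin 4 at j
    fin_cases j <;> cases s <;> cases b
    all_goals first
      | rfl
      | exact congrArg (Fc.P _) (add_sub_cancel_right i 1)
      | exact congrArg (Fc.P _) (sub_add_cancel i 1)
      | exact congrArg (Fc.T _) (add_sub_cancel_right i 1)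
      | exact congrArg (Fc.T _) (sub_add_cancel i 1)
      | exact congrArg (Fc.L _) (add_sub_cancel_right i 1)
      | exact congrArg (Fc.L _) (sub_add_cancel i 1)
      | exact congrArg (Fc.R _) (add_sub_cancel_right i 1)
      | exact congrArg (Fc.R _) (sub_add_cancel i 1)

theorem orbN (s b : Bool) (q : Fin 4) (m : ℕ) (i j : ZMod k) (h : j = i)
    (h2 : (G k).next^[m] (rep (face (⟨.N s i, q⟩, b))) = (⟨.N s j, q⟩, b)) :
    ∃ m : ℕ, (G k).next^[m] (rep (face (⟨.N s i, q⟩, b))) = (⟨.N s i, q⟩, b) := by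
  subst h
  exact ⟨m, h2⟩

theorem orbA (s b : Bool) (q : Fin 2) (m : ℕ) (i j : ZMod k) (h : j = i)
    (h2 : (G k).next^[m] (rep (face (⟨.A s i, q⟩, b))) = (⟨.A s j, q⟩, b)) :
    ∃ m : ℕ, (G k).next^[m] (rep (face (⟨.A s i, q⟩, b))) = (⟨.A s i, q⟩, b) := by
  subst h
  exact ⟨m, h2⟩

theorem orb (d : (G k).Dart) : ∃ m : ℕ, (G k).next^[m] (rep (face d)) = d := by
  rcases d with ⟨⟨i | ⟨s, i⟩ | ⟨s, i⟩, j⟩, b⟩
  · change Fin 1 at j
    fin_cases j
    cases b
    · exact ⟨0, rfl⟩
    · exact ⟨0, rfl⟩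
  · change Fin 2 at j
    fin_cases j <;> cases s <;> cases b
    all_goals first
      | exact ⟨0, rfl⟩
      | exact ⟨1, rfl⟩
      | exact ⟨2, rfl⟩
      | exact ⟨3, rfl⟩
      | exact orbA _ _ _ 1 i (i - 1 + 1) (sub_add_cancel i 1) rfl
      | exact orbA _ _ _ 2 i (i - 1 + 1) (sub_add_cancel i 1) rfl
      | exact orbA _ _ _ 3 i (i - 1 + 1) (sub_add_cancel i 1) rfl
      | exact orbA _ _ _ 1 i (i + 1 - 1) (add_sub_cancel_right i 1) rfl
      | exact orbA _ _ _ 2 i (i + 1 - 1) (add_sub_cancel_right i 1) rfl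
      | exact orbA _ _ _ 3 i (i + 1 - 1) (add_sub_cancel_right i 1) rfl
  · change Fin 4 at j
    fin_cases j <;> cases s <;> cases b
    all_goals first
      | exact ⟨0, rfl⟩
      | exact ⟨1, rfl⟩
      | exact ⟨2, rfl⟩
      | exact ⟨3, rfl⟩
      | exact orbN _ _ _ 1 i (i - 1 + 1) (sub_add_cancel i 1) rfl
      | exact orbN _ _ _ 2 i (i - 1 + 1) (sub_add_cancel i 1) rfl
      | exact orbN _ _ _ 3 i (i - 1 + 1) (sub_add_cancel i 1) rfl
      | exact orbN _ _ _ 1 i (i + 1 - 1) (add_sub_cancel_right i 1) rfl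
      | exact orbN _ _ _ 2 i (i + 1 - 1) (add_sub_cancel_right i 1) rfl
      | exact orbN _ _ _ 3 i (i + 1 - 1) (add_sub_cancel_right i 1) rfl

theorem conn (Q : Fc k → Prop) (h : ∀ d, Q (face d) ↔ Q (face ((G k).rev d))) (f : Fc k) :
    Q f ↔ Q (.P false 0) := by
  have hC : ∀ i, Q (.T false i) ↔ Q (.T true i) := fun i => h (⟨.C i, (0 : Fin 1)⟩, true)
  have hA0 : ∀ s i, Q (.P s (i - 1)) ↔ Q (.P s i) := by
    intro s i
    cases s
    · exact h (⟨.A false i, (0 : Fin 2)⟩, false)
    · exact h (⟨.A true i, (0 : Fin 2)⟩, true)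
  have hA1 : ∀ s i, Q (.L s i) ↔ Q (.R s i) := by
    intro s i
    cases s
    · exact h (⟨.A false i, (1 : Fin 2)⟩, false)
    · exact h (⟨.A true i, (1 : Fin 2)⟩, true)
  have hN0 : ∀ s i, Q (.T s i) ↔ Q (.R s i) := by
    intro s i
    have : Q (.T s (i + 1 - 1)) ↔ Q (.R s (i + 1 - 1)) := by
      cases s
      · exact h (⟨.N false (i + 1), (0 : Fin 4)⟩, false)
      · exact h (⟨.N true (i + 1), (0 : Fin 4)⟩, true)
    rwa [add_sub_cancel_right] at this
  have hN2 : ∀ s i, Q (.R s i) ↔ Q (.P s i) := by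
    intro s i
    cases s
    · exact h (⟨.N false i, (2 : Fin 4)⟩, false)
    · exact h (⟨.N true i, (2 : Fin 4)⟩, true)
  have hP : ∀ s (m : ℕ), Q (.P s (m : ZMod k)) ↔ Q (.P s 0) := by
    intro s m
    induction m with
    | zero => rw [Nat.cast_zero]
    | succ m ih =>
      have := hA0 s ((m + 1 : ℕ) : ZMod k)
      rw [← this, Nat.cast_add, Nat.cast_one, add_sub_cancel_right, ih]
  have hP' : ∀ s (i : ZMod k), Q (.P s i) ↔ Q (.P s 0) := by
    intro s i
    have := hP s i.val
    rwa [ZMod.natCast_zmod_val] at this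
  have hs : ∀ s, Q (.P s 0) ↔ Q (.P false 0) := by
    intro s
    cases s
    · rfl
    · rw [← hN2 true 0, ← hN0 true 0, ← hC 0, hN0, hN2]
  have hR : ∀ s i, Q (.R s i) ↔ Q (.P false 0) := fun s i => by rw [hN2, hP', hs]
  rcases f with ⟨s, i⟩ | ⟨s, i⟩ | ⟨s, i⟩ | ⟨s, i⟩
  · rw [hP', hs]
  · rw [hN0, hR]
  · rw [hA1, hR]
  · rw [hR]

def skel (k : ℕ) [NeZero k] : Skel (G k) (Fc k) where
  face := face
  rep := rep
  vx := vx
  f0 := .P false 0
  face_next := face_next
  face_rep := face_rep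
  orb := orb
  vert_vx := vert_vx
  conn := conn

def edEquiv (k : ℕ) : Ed k ≃ ZMod k ⊕ (Bool × ZMod k) ⊕ (Bool × ZMod k) where
  toFun
    | .C i => Sum.inl i
    | .A s i => Sum.inr (Sum.inl (s, i))
    | .N s i => Sum.inr (Sum.inr (s, i))
  invFun
    | Sum.inl i => .C i
    | Sum.inr (Sum.inl (s, i)) => .A s i
    | Sum.inr (Sum.inr (s, i)) => .N s i
  left_inv e := by cases e <;> rfl
  right_inv e := by rcases e with _ | ⟨_, _⟩ | ⟨_, _⟩ <;> rfl

def fcEquiv (k : ℕ) : Fc k ≃ (Bool × ZMod k) ⊕ (Bool × ZMod k) ⊕ (Bool × ZMod k) ⊕ (Bool × ZMod k) where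
  toFun
    | .P s i => Sum.inl (s, i)
    | .T s i => Sum.inr (Sum.inl (s, i))
    | .L s i => Sum.inr (Sum.inr (Sum.inl (s, i)))
    | .R s i => Sum.inr (Sum.inr (Sum.inr (s, i)))
  invFun
    | Sum.inl (s, i) => .P s i
    | Sum.inr (Sum.inl (s, i)) => .T s i
    | Sum.inr (Sum.inr (Sum.inl (s, i))) => .L s i
    | Sum.inr (Sum.inr (Sum.inr (s, i))) => .R s i
  left_inv e := by cases e <;> rfl
  right_inv e := by rcases e with ⟨_, _⟩ | ⟨_, _⟩ | ⟨_, _⟩ | ⟨_, _⟩ <;> rfl

instance : Fintype (Ed k) := Fintype.ofEquiv _ (edEquiv k).symm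
instance : Fintype (Fc k) := Fintype.ofEquiv _ (fcEquiv k).symm

theorem card_ed : Fintype.card (Ed k) = 5 * k := by
  rw [Fintype.card_congr (edEquiv k)]
  simp only [Fintype.card_sum, Fintype.card_prod, Fintype.card_bool, ZMod.card]
  omega

theorem card_fc : Fintype.card (Fc k) = 8 * k := by
  rw [Fintype.card_congr (fcEquiv k)]
  simp only [Fintype.card_sum, Fintype.card_prod, Fintype.card_bool, ZMod.card]
  omega

theorem sum_ed (f : Ed k → ℕ) : ∑ e, f e = ∑ i : ZMod k, (f (.C i) + f (.A false i) + f (.A true i) +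
    f (.N false i) + f (.N true i)) := by
  rw [← (edEquiv k).symm.sum_comp]
  simp only [Fintype.sum_sum_type, Fintype.sum_prod_type, Fintype.sum_bool, edEquiv,
    Equiv.coe_fn_symm_mk, Finset.sum_add_distrib]
  ring

theorem card_cr : Nat.card (Σ e : Ed k, Fin (len e)) = 8 * k := by
  rw [Nat.card_eq_fintype_card, Fintype.card_sigma]
  simp only [Fintype.card_fin]
  rw [sum_ed]
  simp only [len, Finset.sum_const, Finset.card_univ, ZMod.card, smul_eq_mul]
  omega

theorem card_seg : Nat.card (Σ e : Ed k, Fin (len e + 1)) = 13 * k := by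
  rw [Nat.card_eq_fintype_card, Fintype.card_sigma]
  simp only [Fintype.card_fin]
  rw [sum_ed]
  simp only [len, Finset.sum_const, Finset.card_univ, ZMod.card, smul_eq_mul]
  omega

/-- the drawing -/
def draw (k : ℕ) [NeZero k] : Drawing (Bool ⊕ ZMod k) (Ed k) (Fc k) :=
  (skel k).toDrawing (by
    have h1 := card_cr (k := k)
    have h2 := card_seg (k := k)
    have h3 := card_fc (k := k)
    show 2 * Nat.card (Bool ⊕ ZMod k) + Nat.card (Σ e : Ed k, Fin (len e)) + 2 * Nat.card (Fc k) =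
      2 * Nat.card (Σ e : Ed k, Fin (len e + 1)) + 4
    rw [h1, h2, Nat.card_eq_fintype_card, Nat.card_eq_fintype_card, h3, Fintype.card_sum,
      Fintype.card_bool, ZMod.card]
    omega)

end

end Pool.Agent.H85.FP.Wheel
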