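import Pool.Agent.H85.FP.Wheel

/-!
# The double wheel: properties
-/

set_option autoImplicit false

namespace Pool.Agent.H85.FP.Wheel

open Pool.Agent.Q238.FP

theorem small {k : ℕ} (hk : 4 ≤ k) (m : ℕ) (h0 : 0 < m) (h4 : m < 4) : (m : ZMod k) ≠ 0 := by
  intro h
  rw [ZMod.natCast_eq_zero_iff] at h
  have := Nat.le_of_dvd h0 h
  omega

section

variable {k : ℕ} [NeZero k] (hk : 4 ≤ k)

include hk

theorem one_ne : (1 : ZMod k) ≠ 0 := by
  have := small hk 1 (by omega) (by omega)
  exact_mod_cast this

theorem two_ne : (2 : ZMod k) ≠ 0 := by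
  have := small hk 2 (by omega) (by omega)
  exact_mod_cast this

theorem three_ne : (3 : ZMod k) ≠ 0 := by
  have := small hk 3 (by omega) (by omega)
  exact_mod_cast this

theorem a1 (i : ZMod k) : i ≠ i + 1 := fun h => one_ne hk (by linear_combination -h)
theorem a1' (i : ZMod k) : i + 1 ≠ i := (a1 hk i).symm
theorem a2 (i : ZMod k) : i ≠ i - 1 := fun h => one_ne hk (by linear_combination h)
theorem a2' (i : ZMod k) : i - 1 ≠ i := (a2 hk i).symm
theorem a3 (i : ZMod k) : i - 1 ≠ i + 1 := fun h => two_ne hk (by linear_combination -h)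
theorem a3' (i : ZMod k) : i + 1 ≠ i - 1 := (a3 hk i).symm

theorem loopless : (draw k).Loopless := by
  intro e
  rcases e with i | ⟨s, i⟩ | ⟨s, i⟩
  · show (Sum.inr i : Bool ⊕ ZMod k) ≠ Sum.inr (i + 1)
    simpa using one_ne hk
  · show (Sum.inl s : Bool ⊕ ZMod k) ≠ Sum.inr i
    simp
  · show (Sum.inr (i - 1) : Bool ⊕ ZMod k) ≠ Sum.inr (i + 1)
    intro h
    exact a3 hk i (Sum.inr_injective h)

theorem simple : (draw k).Simple := by
  constructor
  · rintro ⟨i | ⟨s, i⟩ | ⟨s, i⟩, j⟩ b b'
    · exact j.elim0
    · show vert (Ed.A s i, b) ≠ vert (Ed.N s i, b')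
      cases b <;> cases b'
      · exact Sum.inl_ne_inr
      · exact Sum.inl_ne_inr
      · intro h
        exact a2 hk i (Sum.inr_injective h)
      · intro h
        exact a1 hk i (Sum.inr_injective h)
    · change Fin 3 at j
      have key : ∀ j b b', vert (k := k) (Ed.N s j, b) ≠ vert (Ed.N s (j + 1), b') := by
        intro j b b'
        cases b <;> cases b' <;> intro h <;> have h' := Sum.inr_injective h
        · exact one_ne hk (by linear_combination -h')
        · exact three_ne hk (by linear_combination -h')
        · exact one_ne hk (by linear_combination h')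
        · exact one_ne hk (by linear_combination -h')
      fin_cases j
      · show vert (Ed.N s i, b) ≠ vert (Ed.N s (i - 1), b')
        have := key (i - 1) b' b
        rw [sub_add_cancel] at this
        exact this.symm
      · show vert (Ed.N s i, b) ≠ vert (Ed.A s i, b')
        cases b <;> cases b'
        · exact Sum.inr_ne_inl
        · intro h
          exact a2' hk i (Sum.inr_injective h)
        · exact Sum.inr_ne_inl
        · intro h
          exact a1' hk i (Sum.inr_injective h)
      · exact key i b b'
  · rintro ⟨e, j⟩ ⟨e', j'⟩ h h'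
    dsimp only at h
    subst h
    rcases e with i | ⟨s, i⟩ | ⟨s, i⟩
    · exact j.elim0
    · change Fin 1 at j
      change Fin 1 at j'
      rw [Subsingleton.elim j j']
    · change Fin 3 at j
      change Fin 3 at j'
      have n1 : Ed.N s (i - 1) ≠ Ed.N s (i + 1) := by
        intro h
        injection h with _ h
        exact a3 hk i h
      fin_cases j <;> fin_cases j'
      · rfl
      · exact absurd h' (by intro h; cases h)
      · exact absurd h' n1
      · exact absurd h' (by intro h; cases h)
      · rfl
      · exact absurd h' (by intro h; cases h)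
      · exact absurd h' n1.symm
      · exact absurd h' (by intro h; cases h)
      · rfl

omit hk in
theorem fanPlanar : (draw k).FanPlanar := by
  intro e
  rcases e with i | ⟨s, i⟩ | ⟨s, i⟩
  · exact Or.inl ⟨Sum.inl true, fun j => j.elim0⟩
  · exact Or.inl ⟨(draw k).leftEnd ⟨.A s i, (0 : Fin 1)⟩, fun j => by
      change Fin 1 at j
      rw [Subsingleton.elim j 0]⟩
  · have e1 : (Sum.inr (i - 1 + 1) : Bool ⊕ ZMod k) = Sum.inr i := by rw [sub_add_cancel]
    have e2 : (Sum.inr (i + 1 - 1) : Bool ⊕ ZMod k) = Sum.inr i := by rw [add_sub_cancel_right]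
    cases s
    · right
      refine ⟨Sum.inr i, fun j => ?_⟩
      change Fin 3 at j
      fin_cases j
      · exact e1
      · rfl
      · exact e2
    · left
      refine ⟨Sum.inr i, fun j => ?_⟩
      change Fin 3 at j
      fin_cases j
      · exact e1
      · rfl
      · exact e2

end

end Pool.Agent.H85.FP.Wheel
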