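import Pool.Agent.H85.FP.Wheel2

/-!
# The double wheel: parallel edges are not homotopic
-/

set_option autoImplicit false

namespace Pool.Agent.H85.FP.Wheel

open Pool.Agent.Q238.FP

variable {k : ℕ}

instance : DecidableEq (Ed k) := (edEquiv k).decidableEq

/-- the faces between the edge `N s i` and the equator -/
def below (s : Bool) (i : ZMod k) : Fc k → Bool
  | .P _ _ => false
  | .T s' j => (s' == s) && (decide (j = i) || decide (j = i - 1))
  | .L s' j => (s' == s) && decide (j = i)
  | .R s' j => (s' == s) && decide (j = i)

/-- the faces on the side `s` of the equator -/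
def side (s : Bool) : Fc k → Bool
  | .P s' _ => s' == s
  | .T s' _ => s' == s
  | .L s' _ => s' == s
  | .R s' _ => s' == s

section

variable [NeZero k] (hk : 4 ≤ k)

omit [NeZero k] in
theorem dN (s s' : Bool) (i j : ZMod k) :
    decide (Ed.N s i = Ed.N s' j) = ((s == s') && decide (i = j)) := by
  by_cases h1 : s = s' <;> by_cases h2 : i = j <;> simp [h1, h2]

omit [NeZero k] in
theorem dC (i j : ZMod k) : decide (Ed.C i = Ed.C j) = decide (i = j) := by simp

omit [NeZero k] in
theorem dCN (s : Bool) (i j : ZMod k) : decide (Ed.C i = Ed.N s j) = false := by simp
omit [NeZero k] in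
theorem dNC (s : Bool) (i j : ZMod k) : decide (Ed.N s j = Ed.C i) = false := by simp
omit [NeZero k] in
theorem dAN (s s' : Bool) (i j : ZMod k) : decide (Ed.A s i = Ed.N s' j) = false := by simp
omit [NeZero k] in
theorem dAC (s : Bool) (i j : ZMod k) : decide (Ed.A s i = Ed.C j) = false := by simp

include hk in
theorem bd_below (s : Bool) (i : ZMod k) (d : (G k).Dart) :
    (below s i (face d) ^^ below s i (face ((G k).rev d))) =
      (decide (d.1.1 = .N s i) ^^ (decide (d.1.1 = .C i) ^^ decide (d.1.1 = .C (i - 1)))) := by
  rcases d with ⟨⟨j | ⟨t, j⟩ | ⟨t, j⟩, q⟩, b⟩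
  · show (((!b) == s && (decide (j = i) || decide (j = i - 1))) ^^
      ((!!b) == s && (decide (j = i) || decide (j = i - 1)))) = _
    simp only [dCN, dC]
    have h : (decide (j = i) && decide (j = i - 1)) = false := by
      by_cases h : j = i
      · subst h
        simpa using a2 hk j
      · simp [h]
    revert h
    generalize decide (j = i) = x
    generalize decide (j = i - 1) = y
    revert x y b s
    decide
  · change Fin 2 at q
    simp only [dAN, dAC]
    fin_cases q <;> cases b <;> cases t
    all_goals first | rfl | skip
    all_goals
      show (below s i (.L _ j) ^^ below s i (.R _ j)) = _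
      simp [below]
  · change Fin 4 at q
    simp only [dN, dNC]
    have m : ∀ x y : Fc k, ∀ r : Bool, (below s i x ^^ below s i y) = r →
        (below s i y ^^ below s i x) = r := fun x y r h => by rw [Bool.xor_comm]; exact h
    have k0 : (below s i (.R t (j - 1)) ^^ below s i (.T t (j - 1))) =
        ((t == s && decide (j = i)) ^^ (false ^^ false)) := by
      simp only [below]
      rw [show decide (j - 1 = i - 1) = decide (j = i) by simp]
      have h : (decide (j = i) && decide (j - 1 = i)) = false := by
        by_cases h : j = i
        · subst h
          simpa using a2' hk j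
        · simp [h]
      revert h
      generalize decide (j = i) = x
      generalize decide (j - 1 = i) = y
      generalize (t == s) = z
      revert x y z
      decide
    have k1 : (below s i (.P t (j - 1)) ^^ below s i (.L t j)) =
        ((t == s && decide (j = i)) ^^ (false ^^ false)) := by
      simp [below]
    have k2 : (below s i (.P t j) ^^ below s i (.R t j)) =
        ((t == s && decide (j = i)) ^^ (false ^^ false)) := by
      simp [below]
    have k3 : (below s i (.L t (j + 1)) ^^ below s i (.T t j)) =
        ((t == s && decide (j = i)) ^^ (false ^^ false)) := by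
      simp only [below]
      rw [show decide (j = i - 1) = decide (j + 1 = i) by
        congr 1
        exact propext eq_sub_iff_add_eq]
      have h : (decide (j = i) && decide (j + 1 = i)) = false := by
        by_cases h : j = i
        · subst h
          simpa using a1' hk j
        · simp [h]
      revert h
      generalize decide (j = i) = x
      generalize decide (j + 1 = i) = y
      generalize (t == s) = z
      revert x y z
      decide
    fin_cases q <;> cases b <;> cases t
    all_goals first
      | exact k0
      | exact k1
      | exact k2
      | exact k3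
      | exact m _ _ _ k0
      | exact m _ _ _ k1
      | exact m _ _ _ k2
      | exact m _ _ _ k3

/-- the edges of the equator -/
def isC : Ed k → Bool
  | .C _ => true
  | .A _ _ => false
  | .N _ _ => false

theorem bd_side (s : Bool) (d : (G k).Dart) :
    (side s (face d) ^^ side s (face ((G k).rev d))) = isC d.1.1 := by
  rcases d with ⟨⟨j | ⟨t, j⟩ | ⟨t, j⟩, q⟩, b⟩
  · show (((!b) == s) ^^ ((!!b) == s)) = true
    cases b <;> cases s <;> rfl
  · change Fin 2 at q
    fin_cases q <;> cases b <;> cases t <;> cases s <;> rfl
  · change Fin 4 at q
    fin_cases q <;> cases b <;> cases t <;> cases s <;> rfl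

end

end Pool.Agent.H85.FP.Wheel
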