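import Pool.Agent.H85.FP.Wheel3

/-!
# The double wheel: parallel edges are not homotopic
-/

set_option autoImplicit false

namespace Pool.Agent.H85.FP.Wheel

open Pool.Agent.Q238.FP

variable {k : ℕ} [NeZero k] (hk : 4 ≤ k)

theorem region_of (a : Fc k → Bool) (e e' : Ed k)
    (h : ∀ d : (G k).Dart, (a (face d) ^^ a (face ((G k).rev d))) =
      (decide (d.1.1 = e) || decide (d.1.1 = e'))) :
    (draw k).Region e e' {f | a f = true} := by
  intro d
  have := h d
  show (a (face d) = true ↔ a (face ((G k).rev d)) = true) ↔ _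
  by_cases h1 : d.1.1 = e <;> by_cases h2 : d.1.1 = e' <;>
    cases h3 : a (face d) <;> cases h4 : a (face ((G k).rev d)) <;>
    simp [h1, h2, h3, h4] at this ⊢

include hk in
theorem region_same (s : Bool) (i : ZMod k) :
    (draw k).Region (.N s i) (.N (!s) i) {f | (below s i f ^^ below (!s) i f) = true} := by
  apply region_of
  intro d
  have h1 := bd_below hk s i d
  have h2 := bd_below hk (!s) i d
  have h3 : (decide (d.1.1 = .N s i) && decide (d.1.1 = .N (!s) i)) = false := by
    by_cases h : d.1.1 = .N s i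
    · rw [h]
      cases s <;> simp
    · simp [h]
  revert h1 h2 h3
  generalize decide (d.1.1 = Ed.N s i) = x1
  generalize decide (d.1.1 = Ed.N (!s) i) = x2
  generalize decide (d.1.1 = Ed.C i) = x3
  generalize decide (d.1.1 = Ed.C (i - 1)) = x4
  generalize below s i (face d) = x5
  generalize below s i (face ((G k).rev d)) = x6
  generalize below (!s) i (face d) = x7
  generalize below (!s) i (face ((G k).rev d)) = x8
  revert x1 x2 x3 x4 x5 x6 x7 x8
  decide

theorem region_four (s t : Bool) (i : ZMod 4) :
    (draw 4).Region (.N s i) (.N t (i + 2))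
      {f | (below s i f ^^ (below t (i + 2) f ^^ side (!s) f)) = true} := by
  apply region_of
  intro d
  have h1 := bd_below (le_refl 4) s i d
  have h2 := bd_below (le_refl 4) t (i + 2) d
  have h4 := bd_side (!s) d
  have h3 : (decide (d.1.1 = .N s i) && decide (d.1.1 = .N t (i + 2))) = false := by
    by_cases h : d.1.1 = .N s i
    · have : ∀ i : ZMod 4, decide (i = i + 2) = false := by decide
      rw [h, dN s t i (i + 2), this i]
      simp
    · simp [h]
  have h5 : isC d.1.1 = ((decide (d.1.1 = .C i) ^^ decide (d.1.1 = .C (i - 1))) ^^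
        (decide (d.1.1 = .C (i + 2)) ^^ decide (d.1.1 = .C (i + 2 - 1)))) := by
    rcases d with ⟨⟨j | ⟨t, j⟩ | ⟨t, j⟩, q⟩, b⟩
    · simp only [dC]
      have : ∀ i j : ZMod 4, true = ((decide (j = i) ^^ decide (j = i - 1)) ^^
        (decide (j = i + 2) ^^ decide (j = i + 2 - 1))) := by decide
      exact this i j
    · simp [isC]
    · simp [isC]
  rw [h5] at h4
  revert h1 h2 h3 h4
  generalize decide (d.1.1 = Ed.N s i) = x1
  generalize decide (d.1.1 = Ed.N t (i + 2)) = x2
  generalize (decide (d.1.1 = .C i) ^^ decide (d.1.1 = .C (i - 1))) = u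
  generalize (decide (d.1.1 = .C (i + 2)) ^^ decide (d.1.1 = .C (i + 2 - 1))) = w
  generalize below s i (face d) = x5
  generalize below s i (face ((G 4).rev d)) = x6
  generalize below t (i + 2) (face d) = x7
  generalize below t (i + 2) (face ((G 4).rev d)) = x8
  generalize side (!s) (face d) = x11
  generalize side (!s) (face ((G 4).rev d)) = x12
  clear h5
  intro h1 h2 h3 h4
  cases x5 <;> cases x6 <;> cases x7 <;> cases x8 <;> cases x11 <;>
    cases x12 <;> revert x1 x2 u w <;> decide

include hk in
theorem par (e e' : Ed k) (hne : e ≠ e')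
    (h : ({vert (e, false), vert (e, true)} : Set (Bool ⊕ ZMod k)) =
      {vert (e', false), vert (e', true)}) :
    (∃ s i, e = .N s i ∧ e' = .N (!s) i) ∨
      (k = 4 ∧ ∃ s t i, e = .N s i ∧ e' = .N t (i + 2)) := by
  have o := one_ne hk
  have o2 := two_ne hk
  have o3 := three_ne hk
  rw [Set.pair_eq_pair_iff] at h
  rcases e with i | ⟨s, i⟩ | ⟨s, i⟩ <;> rcases e' with j | ⟨t, j⟩ | ⟨t, j⟩ <;>
    simp only [vert, Sum.inr.injEq, Sum.inl.injEq, reduceCtorEq, false_and, and_false,
      or_self, or_false, false_or] at h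
  · -- C C
    exfalso
    rcases h with ⟨h1, -⟩ | ⟨h1, h2⟩
    · exact hne (by rw [h1])
    · exact o2 (by linear_combination h2 - h1)
  · -- C N
    exfalso
    rcases h with ⟨h1, h2⟩ | ⟨h1, h2⟩
    · exact o (by linear_combination h1 - h2)
    · exact o3 (by linear_combination h2 - h1)
  · -- A A
    exfalso
    exact hne (by rw [h.1, h.2])
  · -- N C
    exfalso
    rcases h with ⟨h1, h2⟩ | ⟨h1, h2⟩
    · exact o (by linear_combination h2 - h1)
    · exact o3 (by linear_combination h2 - h1)
  · -- N N
    rcases h with ⟨h1, h2⟩ | ⟨h1, h2⟩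
    · left
      have hij : i = j := by linear_combination h1
      subst hij
      have hst : s ≠ t := fun h => hne (by rw [h])
      refine ⟨s, i, rfl, ?_⟩
      cases s <;> cases t <;> simp at hst ⊢
    · right
      have h4 : ((4 : ℕ) : ZMod k) = 0 := by
        push_cast
        linear_combination h2 - h1
      rw [ZMod.natCast_eq_zero_iff] at h4
      have hk4 : k = 4 := le_antisymm (Nat.le_of_dvd (by omega) h4) hk
      refine ⟨hk4, s, t, i, rfl, ?_⟩
      congr 1
      subst hk4
      have : ∀ i j : ZMod 4, i - 1 = j + 1 → i + 1 = j - 1 → j = i + 2 := by decide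
      exact this i j h1 h2

include hk in
theorem nonHomotopic : (draw k).NonHomotopic := by
  intro e e' hne h
  rcases par hk e e' hne h with ⟨s, i, rfl, rfl⟩ | ⟨rfl, s, t, i, rfl, rfl⟩
  · refine ⟨_, region_same hk s i, ⟨Sum.inr i, ?_, ?_, ?_⟩, ⟨Sum.inl false, ?_, ?_, ?_⟩⟩
    · intro h
      exact a2 hk i (Sum.inr_injective h)
    · intro h
      exact a1 hk i (Sum.inr_injective h)
    · show (below s i (.T false i) ^^ below (!s) i (.T false i)) = true
      cases s <;> simp [below]
    · exact Sum.inl_ne_inr
    · exact Sum.inl_ne_inr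
    · show ¬ (below s i (.P false 0) ^^ below (!s) i (.P false 0)) = true
      simp [below]
  · refine ⟨_, region_four s t i, ⟨Sum.inr i, ?_, ?_, ?_⟩, ⟨Sum.inl s, ?_, ?_, ?_⟩⟩
    · intro h
      exact a2 (le_refl 4) i (Sum.inr_injective h)
    · intro h
      exact a1 (le_refl 4) i (Sum.inr_injective h)
    · show (below s i (.T false i) ^^ (below t (i + 2) (.T false i) ^^ side (!s) (.T false i))) = true
      have h1 : ∀ i : ZMod 4, decide (i = i + 2) = false := by decide
      have h2 : ∀ i : ZMod 4, decide (i = i + 2 - 1) = false := by decide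
      simp only [below, side, h1, h2]
      cases s <;> simp
    · exact Sum.inl_ne_inr
    · exact Sum.inl_ne_inr
    · have : (draw 4).loc (Sum.inl s) = .P s (if s then (0 - 1) else 0) := by cases s <;> rfl
      rw [this]
      show ¬ (below s i (.P s _) ^^ (below t (i + 2) (.P s _) ^^ side (!s) (.P s _))) = true
      cases s <;> simp [below, side]

end Pool.Agent.H85.FP.Wheel
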